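import Pool.Agent.RamseyH5G.Process

set_option autoImplicit false

/-!
# Embeddings of small graphs into large sets, general first part
-/

namespace Pool.Agent.RamseyH5

open Finset

section

open scoped Classical

variable {V W : Type}

/-- The join of two parts, when most degrees are at least `δ`. -/
theorem gjoin_core [Nonempty W] {G : SimpleGraph W} (hG : ¬ H5.IsContained G)
    (H : SimpleGraph V) (A B : Finset V) (n q D δ : ℕ) (hD1 : 1 ≤ D) (hn : 1 ≤ n) (hnq : n ≤ q)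
    (hA : A.card ≤ n) (hB : B.card ≤ n) (hAq : EA H G A q)
    (hBD : Dg H B D) (Q : Finset W) (hQ0 : 0 < Q.card)
    (hL16 : 16 * (Q.filter (fun x => (nb G Q x).card < δ)).card ≤ Q.card)
    (hδn : 64 * q ≤ δ) (hδD : 8 * D ≤ δ) (hnum : 32768 * D ^ 2 * Q.card ≤ δ ^ 3) :
    Emb H G (A ∪ B) Q := by
  by_contra hno
  have hsum : ∑ x ∈ Q, (Pd G Q x).card ≤ Q.card * Q.card := by
    calc ∑ x ∈ Q, (Pd G Q x).card ≤ ∑ _x ∈ Q, Q.card :=
          sum_le_sum fun x _ => card_le_card (Pd_subset G Q x)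
      _ = Q.card * Q.card := by rw [sum_const, smul_eq_mul]
  refine countM hG Q D q δ Q.card hD1 (by omega) hQ0 hL16 hδn hδD hnum hsum ?_ ?_
  · intro a haQ hda Z hZ hZc hZd
    by_contra hcon
    push Not at hcon
    obtain ⟨X, hXP, hXc, e1⟩ := (hAq _ hcon.le).image
    have hX3 : X.card * (2 + 1) ≤ n * 3 := Nat.mul_le_mul_right _ (hXc.trans hA)
    obtain ⟨Z', hZ', hZ'c, hsep⟩ := pick G Z X 2 (Z.card - 3 * n)
      (fun y hy => nb_PP hG (mem_Pd.1 (hXP hy)).2.1 (mem_Pd.1 (hXP hy)).2.2 _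
        (fun z hz => (mem_nb.1 (hZ hz)).2)) (by omega)
    have hdiv : 8 * (D * ((nb G Q a).card / (8 * D))) ≤ (nb G Q a).card := by
      calc 8 * (D * ((nb G Q a).card / (8 * D))) = 8 * D * ((nb G Q a).card / (8 * D)) := by ring
        _ ≤ _ := Nat.mul_div_le _ _
    have e2 : Emb H G B Z' := embed_degenerate H G B D hBD Z' ((nb G Q a).card / (8 * D))
      (fun z hz => (card_le_card (nb_mono G hZ' z)).trans (hZd z (hZ' hz))) (by omega)
    exact hno ((e1.union e2 hsep).mono (union_subset (hXP.trans (Pd_subset G Q a))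
      (hZ'.trans (hZ.trans (nb_subset G Q a)))))
  · intro Wa hWa hWac Z hZ hZc hZd
    have hAB : (A ∪ B).card ≤ 2 * q := by
      have := card_union_le A B
      omega
    have hdiv : 8 * (q * (Wa.card / (8 * q))) ≤ Wa.card := by
      calc 8 * (q * (Wa.card / (8 * q))) = 8 * q * (Wa.card / (8 * q)) := by ring
        _ ≤ _ := Nat.mul_div_le _ _
    refine hno ((embed_degenerate H G (A ∪ B) (2 * q) ((Dg_card H _).mono subset_rfl hAB) Z
      (Wa.card / (8 * q)) hZd ?_).mono (hZ.trans hWa))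
    have : 2 * q * (Wa.card / (8 * q)) = 2 * (q * (Wa.card / (8 * q))) := by ring
    omega

/-- The degree bound is at most the size. -/
theorem le_card_of_filter {G : SimpleGraph W} (Q : Finset W) (Δ M : ℕ) (hM : M ≤ Q.card)
    (hf : (Q.filter (fun x => (nb G Q x).card < Δ)).card < M) : Δ ≤ Q.card := by
  by_contra hcon
  push Not at hcon
  have h2 : Q.filter (fun x => (nb G Q x).card < Δ) = Q := by
    refine filter_true_of_mem fun x _ => ?_
    exact lt_of_le_of_lt (card_le_card (nb_subset G Q x)) hcon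
  rw [h2] at hf
  omega

theorem gjoin_big [Nonempty W] {G : SimpleGraph W} (hG : ¬ H5.IsContained G)
    (H : SimpleGraph V) (A B : Finset V) (n q D Δ M : ℕ) (hD1 : 1 ≤ D) (hn : 1 ≤ n)
    (hnq : n ≤ q) (hA : A.card ≤ n) (hB : B.card ≤ n) (hAq : EA H G A q)
    (hBD : Dg H B D) (hΔ : 16384 * q ≤ Δ) (hMD : 1024 * D ^ 4 ≤ M) (Q : Finset W)
    (hf : (Q.filter (fun x => (nb G Q x).card < Δ)).card < M) (hQ : 32 * M ≤ Q.card) :
    Emb H G (A ∪ B) Q := by
  have hD4 : D ≤ D ^ 4 := Nat.le_self_pow (by norm_num) D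
  have hMpos : 1 ≤ M := by omega
  have hΔN := le_card_of_filter Q Δ M (by omega) hf
  have hΔn : 16384 * n ≤ Δ := by omega
  set N := Q.card with hN
  rcases Nat.lt_or_ge N (128 * (n * D)) with hcase | hcase
  · -- very large degrees
    have h1 : 128 * N ≤ Δ * D := by
      have := Nat.mul_le_mul_right D hΔn
      have e : 16384 * n * D = 128 * (128 * (n * D)) := by ring
      omega
    have h2 : 131072 * D ^ 3 ≤ Δ := by
      have h3 : D * (131072 * D ^ 3) ≤ D * Δ := by
        calc D * (131072 * D ^ 3) = 128 * (1024 * D ^ 4) := by ring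
          _ ≤ 128 * N := by omega
          _ ≤ Δ * D := h1
          _ = D * Δ := by ring
      exact Nat.le_of_mul_le_mul_left h3 hD1
    have hD3 : D ≤ D ^ 3 := Nat.le_self_pow (by norm_num) D
    refine gjoin_core hG H A B n q D Δ hD1 hn hnq hA hB hAq hBD Q (by omega) (by omega)
      (by omega) (by omega) ?_
    calc 32768 * D ^ 2 * N = 256 * D ^ 2 * (128 * N) := by ring
      _ ≤ 256 * D ^ 2 * (Δ * D) := Nat.mul_le_mul_left _ h1
      _ = 256 * D ^ 3 * Δ := by ring
      _ ≤ Δ * Δ := Nat.mul_le_mul_right _ (by omega)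
      _ = Δ * Δ * 1 := by ring
      _ ≤ Δ * Δ * Δ := Nat.mul_le_mul_left _ (by omega)
      _ = Δ ^ 3 := by ring
  · by_contra hno
    have hnD : n ≤ n * D := Nat.le_mul_of_pos_right n hD1
    have hδ1 : 4 * (n * (N / (4 * n))) ≤ N := by
      calc 4 * (n * (N / (4 * n))) = 4 * n * (N / (4 * n)) := by ring
        _ ≤ N := Nat.mul_div_le N (4 * n)
    set δ' := N / (4 * n) with hδ'
    set L := Q.filter (fun x => (nb G Q x).card < δ') with hL
    have hLn : L.card < q := by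
      by_contra hcon
      push Not at hcon
      obtain ⟨X, hXL, hXc, e1⟩ := (hAq L hcon).image
      have hX2 : X.card * (δ' + 1) ≤ n * δ' + n := by
        calc X.card * (δ' + 1) ≤ n * (δ' + 1) := Nat.mul_le_mul_right _ (hXc.trans hA)
          _ = _ := by ring
      obtain ⟨Q₁, hQ₁, hQ₁c, hsep⟩ := pick G Q X δ' (N / 2)
        (fun x hx => (mem_filter.1 (hXL hx)).2.le) (by omega)
      have e2 : Emb H G B Q₁ := by
        refine deg_embed hG H B n D hD1 hB hBD Q₁ ?_ ?_
        · rw [hQ₁c]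
          have : 64 * n * D = 64 * (n * D) := by ring
          omega
        · rw [hQ₁c]
          have h1 : 1024 * D ^ 4 ≤ N / 2 := by omega
          calc 32768 * D ^ 5 = 32768 * D ^ 4 * D := by ring
            _ ≤ 32768 * D ^ 4 * D ^ 4 := Nat.mul_le_mul_left _ hD4
            _ ≤ 1048576 * (D ^ 4 * D ^ 4) := by
                rw [Nat.mul_assoc]
                exact Nat.mul_le_mul_right _ (by norm_num)
            _ = (1024 * D ^ 4) ^ 2 := by ring
            _ ≤ (N / 2) ^ 2 := Nat.pow_le_pow_left h1 2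
      exact hno ((e1.union e2 hsep).mono (union_subset (hXL.trans (filter_subset _ _)) hQ₁))
    have h1 : N ≤ 8 * n * max Δ δ' := by
      have h2 : N < 4 * n * (δ' + 1) := Nat.lt_mul_div_succ N (by omega)
      have h3 : 4 * n * (δ' + 1) ≤ 4 * n * (2 * max Δ δ') := by
        refine Nat.mul_le_mul_left _ ?_
        have := le_max_left Δ δ'
        have := le_max_right Δ δ'
        omega
      calc N ≤ 4 * n * (2 * max Δ δ') := h2.le.trans h3
        _ = _ := by ring
    set δ := max Δ δ' with hδ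
    have hΔδ : Δ ≤ δ := le_max_left _ _
    have h2 : 2048 * N ≤ δ ^ 2 := by
      calc 2048 * N ≤ 2048 * (8 * n * δ) := Nat.mul_le_mul_left _ h1
        _ = 16384 * n * δ := by ring
        _ ≤ δ * δ := Nat.mul_le_mul_right _ (by omega)
        _ = _ := by ring
    have h3 : 16 * D ^ 2 ≤ δ := by
      by_contra hcon
      push Not at hcon
      have h4 : δ ^ 2 < (16 * D ^ 2) ^ 2 := Nat.pow_lt_pow_left hcon (by norm_num)
      have h5 : (16 * D ^ 2) ^ 2 = 256 * D ^ 4 := by ring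
      rw [h5] at h4
      omega
    have hD2 : D ≤ D ^ 2 := Nat.le_self_pow (by norm_num) D
    refine hno (gjoin_core hG H A B n q D δ hD1 hn hnq hA hB hAq hBD Q (by omega) ?_ (by omega)
      (by omega) ?_)
    · have := filter_lt_max G Q Δ δ'
      rw [← hδ, ← hL] at this
      omega
    · calc 32768 * D ^ 2 * N = 16 * D ^ 2 * (2048 * N) := by ring
        _ ≤ δ * δ ^ 2 := Nat.mul_le_mul h3 h2
        _ = δ ^ 3 := by ring

theorem gbig [Nonempty W] {G : SimpleGraph W} (hG : ¬ H5.IsContained G)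
    (H : SimpleGraph V) (S A B : Finset V) (s q D Δ M : ℕ) (hs1 : 1 ≤ s) (hD1 : 1 ≤ D)
    (hS : S.card ≤ s)
    (hBD : Dg H B D) (P : Finset V) (hP : P ⊆ S ∪ (A ∪ B)) (hPq : P.card ≤ q)
    (hPAq : EA H G (P ∩ A) q) (hPc : 16384 * q ≤ Δ)
    (hMD : 1024 * D ^ 4 ≤ M) (hMs : 67108864 * s ^ 5 ≤ M ^ 2)
    (hf : ∀ Q : Finset W, (Q.filter (fun x => (nb G Q x).card < Δ)).card < M)
    (Q : Finset W) (hQ : 64 * M ≤ Q.card) : Emb H G P Q := by
  by_contra hno
  have hD4 : D ≤ D ^ 4 := Nat.le_self_pow (by norm_num) D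
  set n := P.card with hn
  have hn1 : 1 ≤ n := by
    by_contra hcon
    have : P = ∅ := card_eq_zero.1 (by omega)
    rw [this] at hno
    exact hno (Emb_empty H G Q)
  have hMs2 : 1024 * s ^ 2 ≤ M := by
    by_contra hcon
    push Not at hcon
    have h1 : M ^ 2 < (1024 * s ^ 2) ^ 2 := Nat.pow_lt_pow_left hcon (by norm_num)
    have h2 : (1024 * s ^ 2) ^ 2 = 1048576 * s ^ 4 := by ring
    have h3 : s ^ 4 ≤ s ^ 5 := Nat.pow_le_pow_right hs1 (by norm_num)
    rw [h2] at h1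
    omega
  have hs2 : s ≤ s ^ 2 := Nat.le_self_pow (by norm_num) s
  -- the parts of `P`
  set PS := P ∩ S with hPS
  set PA := P ∩ A with hPA
  set PB := P ∩ B with hPB
  have hPeq : P ⊆ PS ∪ (PA ∪ PB) := by
    intro x hx
    have := hP hx
    simp only [hPS, hPA, hPB, mem_union, mem_inter] at this ⊢
    tauto
  have hPAc : PA.card ≤ n := card_le_card inter_subset_left
  have hPBc : PB.card ≤ n := card_le_card inter_subset_left
  have hPSn : PS.card ≤ n := card_le_card inter_subset_left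
  have hPSs : PS.card ≤ s := (card_le_card inter_subset_right).trans hS
  have hSBn : (PS ∪ PB).card ≤ n := card_le_card (union_subset inter_subset_left inter_subset_left)
  have hPBD : Dg H PB D := hBD.mono inter_subset_right le_rfl
  have hno' : ¬ Emb H G (PS ∪ (PA ∪ PB)) Q := fun h => hno (h.subset hPeq)
  set N := Q.card with hN
  have hδ1 : 4 * (s * (N / (4 * s))) ≤ N := by
    calc 4 * (s * (N / (4 * s))) = 4 * s * (N / (4 * s)) := by ring
      _ ≤ N := Nat.mul_div_le N (4 * s)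
  set δ' := N / (4 * s) with hδ'
  set L := Q.filter (fun x => (nb G Q x).card < δ') with hL
  have hLc : 64 * L.card ≤ N := by
    by_contra hcon
    push Not at hcon
    have hML : M ≤ L.card := by omega
    have e1 := deg_embed hG H PS s s hs1 hPSs ((Dg_card H PS).mono subset_rfl hPSs) L (by
      have : 64 * s * s = 64 * s ^ 2 := by ring
      omega) (by
      have h1 : M ^ 2 ≤ L.card ^ 2 := Nat.pow_le_pow_left hML 2
      omega)
    obtain ⟨X, hXL, hXc, e1'⟩ := e1.image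
    have hX2 : X.card * (δ' + 1) ≤ s * δ' + s := by
      calc X.card * (δ' + 1) ≤ s * (δ' + 1) := Nat.mul_le_mul_right _ (hXc.trans hPSs)
        _ = _ := by ring
    obtain ⟨Q₁, hQ₁, hQ₁c, hsep⟩ := pick G Q X δ' (N / 2)
      (fun x hx => (mem_filter.1 (hXL hx)).2.le) (by omega)
    have e2 : Emb H G (PA ∪ PB) Q₁ :=
      gjoin_big hG H PA PB n q D Δ M hD1 hn1 hPq hPAc hPBc hPAq hPBD hPc hMD Q₁ (hf Q₁) (by
        rw [hQ₁c]; omega)
    exact hno' ((e1'.union e2 hsep).mono (union_subset (hXL.trans (filter_subset _ _)) hQ₁))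
  have hδ'1 : 1 ≤ δ' := by
    rw [hδ', Nat.le_div_iff_mul_le (by omega)]
    omega
  have hNδ : N ^ 3 ≤ 512 * s ^ 3 * δ' ^ 3 := by
    have h2 : N < 4 * s * (δ' + 1) := Nat.lt_mul_div_succ N (by omega)
    have h3 : 4 * s * (δ' + 1) ≤ 4 * s * (2 * δ') := Nat.mul_le_mul_left _ (by omega)
    calc N ^ 3 ≤ (4 * s * (2 * δ')) ^ 3 := Nat.pow_le_pow_left (h2.le.trans h3) 3
      _ = _ := by ring
  set δ := max Δ δ' with hδ
  have hΔδ : Δ ≤ δ := le_max_left _ _
  have hδδ : δ' ≤ δ := le_max_right _ _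
  have hNs : 16777216 * (s ^ 3 * (s + D) ^ 2) ≤ N ^ 2 := by
    have h2 : (s + D) ^ 2 ≤ 2 * s ^ 2 + 2 * D ^ 2 := by
      nlinarith [sq_nonneg ((s : ℤ) - D), Nat.le_total s D]
    have h3 : s ^ 3 * D ^ 2 ≤ s ^ 5 + D ^ 8 := by
      rcases Nat.le_total D s with h | h
      · calc s ^ 3 * D ^ 2 ≤ s ^ 3 * s ^ 2 := Nat.mul_le_mul_left _ (Nat.pow_le_pow_left h 2)
          _ = s ^ 5 := by ring
          _ ≤ _ := Nat.le_add_right _ _
      · calc s ^ 3 * D ^ 2 ≤ D ^ 3 * D ^ 2 := Nat.mul_le_mul_right _ (Nat.pow_le_pow_left h 3)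
          _ = D ^ 5 := by ring
          _ ≤ D ^ 8 := Nat.pow_le_pow_right hD1 (by norm_num)
          _ ≤ _ := Nat.le_add_left _ _
    have h4 : s ^ 3 * (s + D) ^ 2 ≤ 4 * s ^ 5 + 2 * D ^ 8 := by
      calc s ^ 3 * (s + D) ^ 2 ≤ s ^ 3 * (2 * s ^ 2 + 2 * D ^ 2) := Nat.mul_le_mul_left _ h2
        _ = 2 * s ^ 5 + 2 * (s ^ 3 * D ^ 2) := by ring
        _ ≤ 2 * s ^ 5 + 2 * (s ^ 5 + D ^ 8) :=
            Nat.add_le_add_left (Nat.mul_le_mul_left _ h3) _
        _ = _ := by ring
    have h5 : 4096 * M ^ 2 ≤ N ^ 2 := by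
      calc 4096 * M ^ 2 = (64 * M) ^ 2 := by ring
        _ ≤ N ^ 2 := Nat.pow_le_pow_left hQ 2
    have h6 : 1048576 * D ^ 8 ≤ M ^ 2 := by
      calc 1048576 * D ^ 8 = (1024 * D ^ 4) ^ 2 := by ring
        _ ≤ M ^ 2 := Nat.pow_le_pow_left hMD 2
    omega
  have hnum : 32768 * (s + D) ^ 2 * N ≤ δ ^ 3 := by
    have h5 : 512 * s ^ 3 * (32768 * (s + D) ^ 2 * N) ≤ 512 * s ^ 3 * δ' ^ 3 := by
      calc 512 * s ^ 3 * (32768 * (s + D) ^ 2 * N)
          = N * (16777216 * (s ^ 3 * (s + D) ^ 2)) := by ring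
        _ ≤ N * N ^ 2 := Nat.mul_le_mul_left _ hNs
        _ = N ^ 3 := by ring
        _ ≤ _ := hNδ
    have h6 := Nat.le_of_mul_le_mul_left h5 (by positivity)
    exact h6.trans (Nat.pow_le_pow_left hδδ 3)
  have hδs : 8 * (s + D) ≤ δ := by
    refine le_trans ?_ hδδ
    rw [hδ', Nat.le_div_iff_mul_le (by omega)]
    have h1 : 8 * (s + D) * (4 * s) = 32 * s ^ 2 + 32 * (s * D) := by ring
    have h2 : s * D ≤ s ^ 2 + D ^ 4 := by
      rcases Nat.le_total D s with h | h
      · calc s * D ≤ s * s := Nat.mul_le_mul_left _ h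
          _ = s ^ 2 := by ring
          _ ≤ _ := Nat.le_add_right _ _
      · calc s * D ≤ D * D := Nat.mul_le_mul_right _ h
          _ = D ^ 2 := by ring
          _ ≤ D ^ 4 := Nat.pow_le_pow_right hD1 (by norm_num)
          _ ≤ _ := Nat.le_add_left _ _
    omega
  have hL16 : 16 * (Q.filter (fun x => (nb G Q x).card < δ)).card ≤ N := by
    have h1 := filter_lt_max G Q Δ δ'
    rw [← hδ, ← hL] at h1
    have h2 := hf Q
    omega
  have hsum : ∑ x ∈ Q, (Pd G Q x).card ≤ N * N := by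
    calc ∑ x ∈ Q, (Pd G Q x).card ≤ ∑ _x ∈ Q, N :=
          sum_le_sum fun x _ => card_le_card (Pd_subset G Q x)
      _ = N * N := by rw [sum_const, smul_eq_mul]
  refine countM hG Q (s + D) q δ N (by omega) (by omega) (by omega) hL16 (by omega) hδs hnum
    hsum ?_ ?_
  · intro a haQ hda Z hZ hZc hZd
    by_contra hcon
    push Not at hcon
    obtain ⟨X, hXP, hXc, e1⟩ := (hPAq _ hcon.le).image
    have hX3 : X.card * (2 + 1) ≤ n * 3 := Nat.mul_le_mul_right _ (hXc.trans hPAc)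
    obtain ⟨Z', hZ', hZ'c, hsep⟩ := pick G Z X 2 (Z.card - 3 * n)
      (fun y hy => nb_PP hG (mem_Pd.1 (hXP hy)).2.1 (mem_Pd.1 (hXP hy)).2.2 _
        (fun z hz => (mem_nb.1 (hZ hz)).2)) (by omega)
    have hdiv : 8 * ((s + D) * ((nb G Q a).card / (8 * (s + D)))) ≤ (nb G Q a).card := by
      calc 8 * ((s + D) * ((nb G Q a).card / (8 * (s + D)))) =
            8 * (s + D) * ((nb G Q a).card / (8 * (s + D))) := by ring
        _ ≤ _ := Nat.mul_div_le _ _
    have e2 : Emb H G (PS ∪ PB) Z' := embed_degenerate H G (PS ∪ PB) (s + D)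
      (Dg_union hPBD hPSs) Z' ((nb G Q a).card / (8 * (s + D)))
      (fun z hz => (card_le_card (nb_mono G hZ' z)).trans (hZd z (hZ' hz))) (by omega)
    have e3 := (e1.union e2 hsep).mono (union_subset (hXP.trans (Pd_subset G Q a))
      (hZ'.trans (hZ.trans (nb_subset G Q a))))
    have e4 : PA ∪ (PS ∪ PB) = PS ∪ (PA ∪ PB) := by
      rw [← union_assoc, union_comm PA PS, union_assoc]
    rw [e4] at e3
    exact hno' e3
  · intro Wa hWa hWac Z hZ hZc hZd
    have hdiv : 8 * (q * (Wa.card / (8 * q))) ≤ Wa.card := by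
      calc 8 * (q * (Wa.card / (8 * q))) = 8 * q * (Wa.card / (8 * q)) := by ring
        _ ≤ _ := Nat.mul_div_le _ _
    refine hno ((embed_degenerate H G P q ((Dg_card H P).mono subset_rfl hPq) Z
      (Wa.card / (8 * q)) hZd (by omega)).mono (hZ.trans hWa))

end

end Pool.Agent.RamseyH5
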