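import Pool.Agent.RamseyH5G.Step

set_option autoImplicit false

/-!
# Partitions into degenerate parts: the induction
-/

namespace Pool.Agent.RamseyH5

open Finset

section

open scoped Classical

/-- `H` has a partition into `k` parts inducing `d`-degenerate graphs. -/
def Parts {V : Type} (H : SimpleGraph V) (k d : ℕ) : Prop :=
  ∃ c : V → Fin k, ∀ (i : Fin k) (T : Finset V), (∀ v ∈ T, c v = i) → T.Nonempty →
    ∃ v ∈ T, (T.filter (fun u => H.Adj v u)).card ≤ d

/-- The statement proved by induction on the number of parts `k`. -/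
def SKd (d k f C : ℕ) : Prop :=
  ∀ (V W : Type) [Fintype V] (H : SimpleGraph V) (G : SimpleGraph W), ¬ H5.IsContained G →
    Parts H k d → ∀ μ : ℕ, 1 ≤ μ → Fintype.card V ≤ μ →
    ∑ v : V, (univ.filter (fun u => H.Adj v u)).card ≤ μ → ∀ U : Finset W,
    C * μ ^ (5 * f + 4) ≤ U.card ^ (4 * f + 4) → Emb H G univ U

variable {V W : Type}

theorem sub_filter_card (H : SimpleGraph V) (P : Finset V) (T : Finset {x // x ∈ P})
    (v : {x // x ∈ P}) : (T.filter (fun u => (Sub H P).Adj v u)).card ≤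
      ((T.map (Function.Embedding.subtype _)).filter (fun u => H.Adj v.1 u)).card := by
  refine card_le_card_of_injOn (fun u => u.1) ?_ ?_
  · intro u hu
    obtain ⟨h1, h2⟩ := mem_filter.1 hu
    exact mem_filter.2 ⟨mem_map.2 ⟨u, h1, rfl⟩, h2⟩
  · intro a _ b _ hab
    exact Subtype.ext hab

theorem SKd_base (d : ℕ) (hd : 1 ≤ d) :
    SKd d 2 0 ((1152921504606846976 * d ^ 5) ^ 4) := by
  intro V W _ H G hG hcol μ hμ1 hVμ hμ U hU
  have hd5 : 1 ≤ d ^ 5 := Nat.pow_pos hd
  have hdd : d ≤ d ^ 5 := Nat.le_self_pow (by norm_num) d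
  have hU1 : 1152921504606846976 * d ^ 5 * μ ≤ U.card := by
    by_contra hcon
    push Not at hcon
    have h1 := Nat.pow_lt_pow_left hcon (n := 4) (by norm_num)
    rw [mul_pow] at h1
    simp only [Nat.mul_zero, Nat.zero_add] at hU
    omega
  have hU2 : 1152921504606846976 * (d ^ 5 * μ) ≤ U.card := by
    have : 1152921504606846976 * d ^ 5 * μ = 1152921504606846976 * (d ^ 5 * μ) := by ring
    omega
  have h5μ : d ^ 5 ≤ d ^ 5 * μ := Nat.le_mul_of_pos_right _ hμ1
  have hdμ : d * μ ≤ d ^ 5 * μ := Nat.mul_le_mul_right _ hdd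
  obtain ⟨c, hc⟩ := hcol
  have hne : Nonempty {x // x ∈ U} := by
    obtain ⟨x, hx⟩ := card_pos.1 (by omega : 0 < U.card)
    exact ⟨⟨x, hx⟩⟩
  have hc2 : ∀ i : Fin 2, Dg H (univ.filter (fun v => c v = i)) d := fun i T hT hTne =>
    hc i T (fun v hv => (mem_filter.1 (hT hv)).2) hTne
  have hd4 : d ^ 4 ≤ d ^ 5 := Nat.pow_le_pow_right hd (by norm_num)
  have hdat : GDat H ∅ (univ.filter (fun v => c v = 0)) (univ.filter (fun v => c v = 1)) 1 d d
      (U.card / 256) μ := by
    refine ⟨le_rfl, hd, hd, hμ1, by simp, hc2 0, hc2 1, ?_, hVμ,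
      hμ, by omega, by omega, by omega, ?_⟩
    · intro v
      have h2 : c v = 0 ∨ c v = 1 := by
        generalize c v = i
        fin_cases i
        · exact Or.inl rfl
        · exact Or.inr rfl
      simp only [mem_union, mem_filter, mem_univ, true_and]
      tauto
    · have h1 : 1152921504606846976 / 256 ≤ U.card / 256 := Nat.div_le_div_right (by omega)
      calc 144115188075855872 * 1 ^ 5 ≤ (1152921504606846976 / 256) ^ 2 := by norm_num
        _ ≤ (U.card / 256) ^ 2 := Nat.pow_le_pow_left h1 2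
  obtain ⟨Z, hZ⟩ := gsparse_core (sub_free hG U) hdat univ (by
    rw [card_univ, Fintype.card_coe]
    omega)
  exact emb_of_sub hZ

/-- The constant depending on `d`. -/
noncomputable def kap (d : ℕ) : ℕ := 1152921504606846976 * (d * ed d ^ 2)

theorem SKd_step {d k f C₀ : ℕ} (hd : 1 ≤ d) (hC : 1 ≤ C₀) (hk : SKd d k f C₀) :
    SKd d (k + 1) (3 * f + 2) (C₀ ^ 3 * kap d ^ (12 * (f + 1)) * 2 ^ (600 * (f + 1))) := by
  intro V W _ H G hG hcol μ hμ1 hVμ hμ U hU
  have hed : 1 ≤ ed d := by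
    rw [ed]
    omega
  have hed2 : 1 ≤ ed d ^ 2 := Nat.pow_pos hed
  have hκ1 : 1 ≤ kap d := by
    rw [kap]
    exact Nat.mul_pos (by norm_num) (Nat.mul_pos hd hed2)
  have hκp : 1 ≤ kap d ^ (12 * (f + 1)) := Nat.pow_pos hκ1
  have hC3' : 1 ≤ C₀ ^ 3 := Nat.pow_pos hC
  set C3 := C₀ ^ 3 * kap d ^ (12 * (f + 1)) with hC3def
  have hC3 : 1 ≤ C3 := Nat.mul_pos hC3' hκp
  have hC30 : C₀ ^ 3 ≤ C3 := Nat.le_mul_of_pos_right _ hκp
  have hC3κ : kap d ^ (12 * (f + 1)) ≤ C3 := Nat.le_mul_of_pos_left _ hC3'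
  -- the number `M`
  set M := U.card / 256 with hM
  have hUpos : 1 ≤ U.card := by
    by_contra h0
    have h1 : U.card = 0 := by omega
    rw [h1, zero_pow (by omega)] at hU
    have : 0 < C3 * 2 ^ (600 * (f + 1)) * μ ^ (5 * (3 * f + 2) + 4) :=
      Nat.mul_pos (Nat.mul_pos hC3 (by positivity)) (Nat.pow_pos hμ1)
    omega
  have hUe : C3 * 2 ^ (600 * (f + 1)) * μ ^ (15 * f + 14) ≤ U.card ^ (12 * f + 12) := by
    have e1 : 5 * (3 * f + 2) + 4 = 15 * f + 14 := by ring
    have e2 : 4 * (3 * f + 2) + 4 = 12 * f + 12 := by ring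
    rw [e1, e2] at hU
    exact hU
  have hU256 : 256 ≤ U.card := by
    have h1 : (256 : ℕ) ^ (12 * f + 12) ≤ U.card ^ (12 * f + 12) := by
      refine le_trans ?_ hUe
      have h2 : (256 : ℕ) ^ (12 * f + 12) = 2 ^ (8 * (12 * f + 12)) := by
        rw [pow_mul]
        norm_num
      have h3 : 2 ^ (8 * (12 * f + 12)) ≤ 2 ^ (600 * (f + 1)) :=
        Nat.pow_le_pow_right (by norm_num) (by omega)
      rw [h2]
      refine h3.trans ?_
      rw [mul_assoc]
      exact (Nat.le_mul_of_pos_right _ (Nat.pow_pos hμ1)).trans (Nat.le_mul_of_pos_left _ hC3)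
    exact pow_root (by omega) h1
  have hUM : U.card ≤ 512 * M := by omega
  have hM1 : 1 ≤ M := by omega
  have hMe : C3 * 2 ^ (480 * (f + 1)) * μ ^ (15 * f + 14) ≤ M ^ (12 * f + 12) := by
    have h1 : 2 ^ (120 * (f + 1)) * (C3 * 2 ^ (480 * (f + 1)) * μ ^ (15 * f + 14)) ≤
        2 ^ (120 * (f + 1)) * M ^ (12 * f + 12) := by
      have hab : 2 ^ (120 * (f + 1)) * 2 ^ (480 * (f + 1)) = 2 ^ (600 * (f + 1)) := by
        have e : 120 * (f + 1) + 480 * (f + 1) = 600 * (f + 1) := by ring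
        rw [← pow_add, e]
      calc 2 ^ (120 * (f + 1)) * (C3 * 2 ^ (480 * (f + 1)) * μ ^ (15 * f + 14))
          = C3 * (2 ^ (120 * (f + 1)) * 2 ^ (480 * (f + 1))) * μ ^ (15 * f + 14) := by
            generalize 2 ^ (120 * (f + 1)) = a
            generalize 2 ^ (480 * (f + 1)) = b
            ring
        _ = C3 * 2 ^ (600 * (f + 1)) * μ ^ (15 * f + 14) := by rw [hab]
        _ ≤ U.card ^ (12 * f + 12) := hUe
        _ ≤ (512 * M) ^ (12 * f + 12) := Nat.pow_le_pow_left hUM _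
        _ = 2 ^ (9 * (12 * f + 12)) * M ^ (12 * f + 12) := by
            rw [mul_pow, pow_mul]
            norm_num
        _ ≤ 2 ^ (120 * (f + 1)) * M ^ (12 * f + 12) :=
            Nat.mul_le_mul_right _ (Nat.pow_le_pow_right (by norm_num) (by omega))
    exact Nat.le_of_mul_le_mul_left h1 (by positivity)
  have hM6 : kap d ^ 6 * μ ^ 7 ≤ M ^ 6 := by
    refine pow_root (n := 2 * (f + 1)) (by omega) ?_
    calc (kap d ^ 6 * μ ^ 7) ^ (2 * (f + 1)) = kap d ^ (12 * (f + 1)) * μ ^ (14 * (f + 1)) := by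
          rw [mul_pow, ← pow_mul, ← pow_mul]
          congr 2 <;> ring
      _ ≤ C3 * μ ^ (15 * f + 14) :=
          Nat.mul_le_mul hC3κ (Nat.pow_le_pow_right hμ1 (by omega))
      _ ≤ C3 * 2 ^ (480 * (f + 1)) * μ ^ (15 * f + 14) :=
          Nat.mul_le_mul_right _ (Nat.le_mul_of_pos_right _ (by positivity))
      _ ≤ M ^ (12 * f + 12) := hMe
      _ = (M ^ 6) ^ (2 * (f + 1)) := by
          rw [← pow_mul]
          congr 1
          ring
  have hMκ : kap d * μ ≤ M := by
    refine pow_root (n := 6) (by norm_num) ?_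
    calc (kap d * μ) ^ 6 = kap d ^ 6 * μ ^ 6 := by ring
      _ ≤ kap d ^ 6 * μ ^ 7 :=
          Nat.mul_le_mul_left _ (Nat.pow_le_pow_right hμ1 (by norm_num))
      _ ≤ M ^ 6 := hM6
  have hMκ' : 1152921504606846976 * (d * ed d ^ 2 * μ) ≤ M := by
    have : kap d * μ = 1152921504606846976 * (d * ed d ^ 2 * μ) := by
      rw [kap]
      ring
    omega
  have hdμ1 : d * μ ≤ d * ed d ^ 2 * μ :=
    Nat.mul_le_mul_right _ (Nat.le_mul_of_pos_right _ hed2)
  have hμ2 : μ ≤ d * ed d ^ 2 * μ := Nat.le_mul_of_pos_left _ (Nat.mul_pos hd hed2)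
  have hde2 : ed d ^ 2 * μ ≤ d * ed d ^ 2 * μ :=
    Nat.mul_le_mul_right _ (Nat.le_mul_of_pos_left _ hd)
  have hede : ed d ≤ ed d ^ 2 := Nat.le_self_pow (by norm_num) _
  have hμM : 262144 * μ ≤ M := by omega
  -- the number `σ`
  set r := Nat.sqrt μ with hr
  have hr2 : r * r ≤ μ := Nat.sqrt_le μ
  have hr3 : μ < (r + 1) * (r + 1) := Nat.lt_succ_sqrt μ
  have hr1 : 1 ≤ r := by
    by_contra h0
    have h1 : r = 0 := by omega
    rw [h1] at hr3
    omega
  set σ := r + 1 with hσ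
  have hσμ : σ ^ 2 ≤ 4 * μ := by
    calc σ ^ 2 ≤ (2 * r) ^ 2 := Nat.pow_le_pow_left (by omega) 2
      _ = 4 * (r * r) := by ring
      _ ≤ 4 * μ := Nat.mul_le_mul_left _ hr2
  have hμσ : μ ≤ σ ^ 2 := by
    have : σ ^ 2 = σ * σ := by ring
    omega
  have hσ1 : 1 ≤ σ := by omega
  -- parts
  obtain ⟨c, hc⟩ := hcol
  set A := univ.filter (fun v => c v = Fin.last k) with hA
  set B := univ.filter (fun v => c v ≠ Fin.last k) with hB
  have hcolB : ∀ P' ⊆ B, Parts (Sub H P') k d := by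
    intro P' hP'
    have hlt : ∀ v : {x // x ∈ P'}, (c v.1).1 < k := by
      intro v
      have h1 : c v.1 ≠ Fin.last k := (mem_filter.1 (hP' v.2)).2
      have h2 := (c v.1).2
      have h3 : (c v.1).1 ≠ k := fun h => h1 (Fin.ext h)
      omega
    refine ⟨fun v => (⟨(c v.1).1, hlt v⟩ : Fin k), fun i T hT hTne => ?_⟩
    obtain ⟨v, hv, hvd⟩ := hc i.castSucc (T.map (Function.Embedding.subtype _)) (by
      intro v hv
      obtain ⟨u, hu, rfl⟩ := mem_map.1 hv
      have h1 := hT u hu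
      refine Fin.ext ?_
      rw [← h1]
      rfl) (hTne.map)
    obtain ⟨u, hu, rfl⟩ := mem_map.1 hv
    exact ⟨u, hu, (sub_filter_card H P' T u).trans hvd⟩
  have hne : Nonempty W := by
    obtain ⟨x, -⟩ := card_pos.1 (by omega : 0 < U.card)
    exact ⟨x⟩
  have hneU : Nonempty {x // x ∈ U} := by
    obtain ⟨x, hx⟩ := card_pos.1 (by omega : 0 < U.card)
    exact ⟨⟨x, hx⟩⟩
  have hdat : GDat3 H A B f d σ M μ C₀ := by
    refine ⟨hd, fun T hT hTne => hc (Fin.last k) T (fun v hv => (mem_filter.1 (hT hv)).2) hTne,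
      ?_, hσ1, ?_, hσμ, hμσ, hVμ, hμ, by omega, ?_, by
        have : ed d ^ 2 ≤ ed d ^ 2 * μ := Nat.le_mul_of_pos_right _ hμ1
        omega, ?_, ?_⟩
    · intro v
      simp only [hA, hB, mem_union, mem_filter, mem_univ, true_and]
      exact em _
    · exact Dg_sqrt H μ hμ
    · have h1 : σ ≤ 2 * μ := by
        have : r ≤ r * r := Nat.le_mul_of_pos_left r hr1
        omega
      have h2 : σ * ed d ≤ 2 * (ed d ^ 2 * μ) := by
        calc σ * ed d ≤ 2 * μ * ed d ^ 2 := Nat.mul_le_mul h1 hede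
          _ = _ := by ring
      omega
    · -- the main numerical condition
      have hE : M ≤ 32 * σ * (M / (16 * σ)) := by
        have h1 : M < 16 * σ * (M / (16 * σ) + 1) := Nat.lt_mul_div_succ M (by omega)
        have h2 : 1 ≤ M / (16 * σ) := by
          rw [Nat.le_div_iff_mul_le (by omega)]
          have h3 : σ ≤ σ ^ 2 := Nat.le_self_pow (by norm_num) σ
          omega
        calc M ≤ 16 * σ * (M / (16 * σ) + 1) := h1.le
          _ ≤ 16 * σ * (2 * (M / (16 * σ))) := Nat.mul_le_mul_left _ (by omega)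
          _ = _ := by ring
      have h1 : (32 * σ) ^ (2 * f + 4) * (C₀ * (16 * μ) ^ (10 * f + 8) *
          (34359738368 * σ ^ 2) ^ (4 * f + 4)) ≤
          (32 * σ) ^ (2 * f + 4) * (M ^ (10 * f + 8) * (M / (16 * σ)) ^ (2 * f + 4)) := by
        calc (32 * σ) ^ (2 * f + 4) * (C₀ * (16 * μ) ^ (10 * f + 8) *
              (34359738368 * σ ^ 2) ^ (4 * f + 4))
            = C₀ * μ ^ (10 * f + 8) * (σ ^ 2) ^ (5 * f + 6) *
              (2 ^ (5 * (2 * f + 4)) * 2 ^ (4 * (10 * f + 8)) * 2 ^ (35 * (4 * f + 4))) := by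
              rw [pow_mul 2 5, pow_mul 2 4, pow_mul 2 35, mul_pow 32 σ, mul_pow 16 μ,
                mul_pow 34359738368 (σ ^ 2), ← pow_mul σ 2 (5 * f + 6), ← pow_mul σ 2 (4 * f + 4)]
              have e : 2 * (5 * f + 6) = (2 * f + 4) + 2 * (4 * f + 4) := by ring
              rw [e, pow_add]
              norm_num
              ring
          _ ≤ C₀ * μ ^ (10 * f + 8) * (4 * μ) ^ (5 * f + 6) *
              (2 ^ (5 * (2 * f + 4)) * 2 ^ (4 * (10 * f + 8)) * 2 ^ (35 * (4 * f + 4))) :=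
              Nat.mul_le_mul_right _ (Nat.mul_le_mul_left _ (Nat.pow_le_pow_left hσμ _))
          _ = C₀ * μ ^ (15 * f + 14) * 2 ^ (200 * f + 204) := by
              rw [← pow_add, ← pow_add, mul_pow, show (4 : ℕ) = 2 ^ 2 by norm_num, ← pow_mul]
              have e1 : 200 * f + 204 = 2 * (5 * f + 6) +
                (5 * (2 * f + 4) + 2 ^ 2 * (10 * f + 8) + 35 * (2 ^ 2 * f + 2 ^ 2)) := by ring
              have e2 : 15 * f + 14 = (10 * f + 8) + (5 * f + 6) := by ring
              rw [e1, e2, pow_add 2 (2 * (5 * f + 6)), pow_add μ]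
              ring
          _ ≤ C3 * μ ^ (15 * f + 14) * 2 ^ (480 * (f + 1)) :=
              Nat.mul_le_mul (Nat.mul_le_mul_right _
                ((Nat.le_self_pow (by norm_num) C₀).trans hC30))
                (Nat.pow_le_pow_right (by norm_num) (by omega))
          _ = C3 * 2 ^ (480 * (f + 1)) * μ ^ (15 * f + 14) := by
              generalize 2 ^ (480 * (f + 1)) = b
              ring
          _ ≤ M ^ (12 * f + 12) := hMe
          _ = M ^ (10 * f + 8) * M ^ (2 * f + 4) := by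
              rw [← pow_add]
              congr 1
              ring
          _ ≤ M ^ (10 * f + 8) * (32 * σ * (M / (16 * σ))) ^ (2 * f + 4) :=
              Nat.mul_le_mul_left _ (Nat.pow_le_pow_left hE _)
          _ = _ := by
              rw [mul_pow (32 * σ)]
              ring
      exact Nat.le_of_mul_le_mul_left h1 (Nat.pow_pos (by omega))
    · have h1 : d ^ 3 ≤ (d * ed d ^ 2) ^ 6 := by
        calc d ^ 3 ≤ d ^ 6 := Nat.pow_le_pow_right hd (by norm_num)
          _ ≤ (d * ed d ^ 2) ^ 6 :=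
              Nat.pow_le_pow_left (Nat.le_mul_of_pos_right _ hed2) 6
      have h2 : 45671926166590716193865151022383844364247891968 * 16 * d ^ 3 ≤ kap d ^ 6 := by
        calc 45671926166590716193865151022383844364247891968 * 16 * d ^ 3 ≤
              1152921504606846976 ^ 6 * (d * ed d ^ 2) ^ 6 :=
              Nat.mul_le_mul (by norm_num) h1
          _ = kap d ^ 6 := by rw [kap, mul_pow 1152921504606846976 (d * ed d ^ 2) 6]
      calc 45671926166590716193865151022383844364247891968 * (d ^ 3 * μ ^ 6 * σ ^ 4)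
          = 45671926166590716193865151022383844364247891968 * (d ^ 3 * μ ^ 6 *
            (σ ^ 2) ^ 2) := by ring
        _ ≤ 45671926166590716193865151022383844364247891968 * (d ^ 3 * μ ^ 6 *
            (4 * μ) ^ 2) :=
            Nat.mul_le_mul_left _ (Nat.mul_le_mul_left _ (Nat.pow_le_pow_left hσμ 2))
        _ = 45671926166590716193865151022383844364247891968 * 16 * d ^ 3 * μ ^ 7 * μ := by ring
        _ ≤ kap d ^ 6 * μ ^ 7 * M :=
            Nat.mul_le_mul (Nat.mul_le_mul_right _ h2) (by omega)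
        _ ≤ M ^ 6 * M := Nat.mul_le_mul_right _ hM6
        _ = M ^ 7 := by ring
  have hfin := gstep (sub_free hG U) hdat ?_ ?_ univ (by
    rw [card_univ, Fintype.card_coe]
    omega)
  · obtain ⟨Z, hZ⟩ := hfin
    exact emb_of_sub hZ
  · intro P' hP' Z hZ
    refine emb_of_restrict (hk {x // x ∈ P'} {x // x ∈ U} (Sub H P') (Sub G U) (sub_free hG U)
      (hcolB P' hP') μ hμ1 ?_ ((sub_deg_sum H P').trans hμ) Z ?_)
    · rw [Fintype.card_coe]
      exact (card_le_univ P').trans hVμ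
    · refine pow_root (n := 3) (by norm_num) ?_
      have h1 : 2 ^ (48 * (f + 1)) * (C₀ * μ ^ (5 * f + 4)) ^ 3 ≤
          2 ^ (48 * (f + 1)) * (Z.card ^ (4 * f + 4)) ^ 3 := by
        calc 2 ^ (48 * (f + 1)) * (C₀ * μ ^ (5 * f + 4)) ^ 3
            = C₀ ^ 3 * 2 ^ (48 * (f + 1)) * μ ^ (15 * f + 12) := by
              rw [mul_pow, ← pow_mul, show (5 * f + 4) * 3 = 15 * f + 12 by ring]
              ring
          _ ≤ C3 * 2 ^ (480 * (f + 1)) * μ ^ (15 * f + 14) :=
              Nat.mul_le_mul (Nat.mul_le_mul hC30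
                (Nat.pow_le_pow_right (by norm_num) (by omega)))
                (Nat.pow_le_pow_right hμ1 (by omega))
          _ ≤ M ^ (12 * f + 12) := hMe
          _ ≤ (16 * Z.card) ^ (12 * f + 12) := Nat.pow_le_pow_left hZ _
          _ = _ := by
              rw [mul_pow, show (16 : ℕ) = 2 ^ 4 by norm_num, ← pow_mul, ← pow_mul]
              congr 2 <;> ring
      exact Nat.le_of_mul_le_mul_left h1 (by positivity)
  · intro P' hP' n hn hn1 Z hZ
    refine emb_of_restrict (hk {x // x ∈ P'} {x // x ∈ U} (Sub H P') (Sub G U) (sub_free hG U)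
      (hcolB P' hP') (n ^ 2) (Nat.pow_pos hn1) ?_ (sub_deg_sq H P' n hn) Z ?_)
    · rw [Fintype.card_coe]
      exact hn.trans (Nat.le_self_pow (by norm_num) n)
    · rw [← pow_mul, show 2 * (5 * f + 4) = 10 * f + 8 by ring]
      exact hZ

theorem SKd_all (d : ℕ) (hd : 1 ≤ d) (j : ℕ) :
    ∃ C : ℕ, 1 ≤ C ∧ SKd d (j + 2) (3 ^ j - 1) C := by
  induction j with
  | zero =>
    exact ⟨_, Nat.one_le_pow _ _ (Nat.mul_pos (by norm_num) (Nat.pow_pos hd)), SKd_base d hd⟩
  | succ j ih =>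
    obtain ⟨C, hC, h⟩ := ih
    have hed : 1 ≤ ed d := by
      rw [ed]
      omega
    have hκ : 0 < kap d := by
      rw [kap]
      exact Nat.mul_pos (by norm_num) (Nat.mul_pos hd (Nat.pow_pos hed))
    refine ⟨C ^ 3 * kap d ^ (12 * (3 ^ j - 1 + 1)) * 2 ^ (600 * (3 ^ j - 1 + 1)), ?_, ?_⟩
    · exact Nat.mul_pos (Nat.mul_pos (Nat.pow_pos hC) (Nat.pow_pos hκ))
        (Nat.pow_pos (by norm_num))
    · have h1 := SKd_step hd hC h
      have h2 : 0 < 3 ^ j := by positivity
      have e : 3 * (3 ^ j - 1) + 2 = 3 ^ (j + 1) - 1 := by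
        rw [pow_succ]
        omega
      rw [e] at h1
      exact h1

end

end Pool.Agent.RamseyH5
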