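import Pool.Agent.RamseyH5G.Big

set_option autoImplicit false

/-!
# The sparse theorem, both parts of bounded degeneracy
-/

namespace Pool.Agent.RamseyH5

open Finset

section

open scoped Classical

variable {V W : Type}

/-- Data of the graph to be embedded. -/
structure GDat (H : SimpleGraph V) (S A B : Finset V) (s d D M μ : ℕ) [Fintype V] : Prop where
  hs1 : 1 ≤ s
  hd1 : 1 ≤ d
  hD1 : 1 ≤ D
  hμ1 : 1 ≤ μ
  hS : S.card ≤ s
  hAD : Dg H A d
  hBD : Dg H B D
  hcov : ∀ v, v ∈ S ∪ (A ∪ B)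
  hVμ : Fintype.card V ≤ μ
  hμ : ∑ v : V, (univ.filter (fun u => H.Adj v u)).card ≤ μ
  hMμ : 33554432 * (d * μ) ≤ M
  hMd : 549755813888 * d ^ 5 ≤ M
  hMD : 4398046511104 * D ^ 4 ≤ M
  hMs : 144115188075855872 * s ^ 5 ≤ M ^ 2

/-- The constant part of the size of a set into which `d`-degenerate graphs embed. -/
noncomputable def ed (d : ℕ) : ℕ := Nat.sqrt (32768 * d ^ 5) + 1

theorem ed_lower (d : ℕ) : 32768 * d ^ 5 ≤ ed d ^ 2 := by
  have h := Nat.lt_succ_sqrt (32768 * d ^ 5)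
  rw [ed, Nat.pow_two]
  exact h.le

theorem ed_upper {d : ℕ} (hd : 1 ≤ d) : ed d ^ 2 ≤ 131072 * d ^ 5 := by
  have h1 : Nat.sqrt (32768 * d ^ 5) * Nat.sqrt (32768 * d ^ 5) ≤ 32768 * d ^ 5 := Nat.sqrt_le _
  have h2 : 1 ≤ Nat.sqrt (32768 * d ^ 5) := by
    rw [Nat.le_sqrt]
    have : 0 < d ^ 5 := Nat.pow_pos hd
    omega
  calc ed d ^ 2 ≤ (2 * Nat.sqrt (32768 * d ^ 5)) ^ 2 := by
        refine Nat.pow_le_pow_left ?_ 2
        rw [ed]
        omega
    _ = 4 * (Nat.sqrt (32768 * d ^ 5) * Nat.sqrt (32768 * d ^ 5)) := by ring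
    _ ≤ 4 * (32768 * d ^ 5) := Nat.mul_le_mul_left _ h1
    _ = _ := by ring

theorem embA [Nonempty W] {G : SimpleGraph W} (hG : ¬ H5.IsContained G) {H : SimpleGraph V}
    {A PA : Finset V} {n d : ℕ} (hd : 1 ≤ d) (hAD : Dg H A d) (hPA : PA ⊆ A)
    (hn : PA.card ≤ n) : EA H G PA (64 * (n * d) + ed d) := by
  intro Z hZ
  refine deg_embed hG H PA n d hd hn (hAD.mono hPA le_rfl) Z ?_ ?_
  · have : 64 * n * d = 64 * (n * d) := by ring
    omega
  · exact (ed_lower d).trans (Nat.pow_le_pow_left (by omega) 2)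

/-- The size of the threshold. -/
theorem q_small {n d μ M Dc : ℕ} (hμ1 : 1 ≤ μ) (hMμ : 33554432 * (d * μ) ≤ M)
    (hn : n * M ≤ 16 * μ * Dc) (he : 32768 * ed d ≤ Dc) :
    16384 * (64 * (n * d) + ed d) ≤ Dc := by
  have h1 : 16 * μ * (2097152 * (n * d)) ≤ 16 * μ * Dc := by
    calc 16 * μ * (2097152 * (n * d)) = n * (33554432 * (d * μ)) := by ring
      _ ≤ n * M := Nat.mul_le_mul_left _ hMμ
      _ ≤ _ := hn
  have h2 := Nat.le_of_mul_le_mul_left h1 (by omega)
  omega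

theorem GDat.M_pos [Fintype V] {H : SimpleGraph V} {S A B : Finset V} {s d D M μ : ℕ}
    (h : GDat H S A B s d D M μ) : 4398046511104 ≤ M := by
  have h1 := h.hMD
  have h2 : 0 < D ^ 4 := Nat.pow_pos h.hD1
  omega

theorem GDat.Mμ [Fintype V] {H : SimpleGraph V} {S A B : Finset V} {s d D M μ : ℕ}
    (h : GDat H S A B s d D M μ) : 262144 * μ ≤ M := by
  have h1 := h.hMμ
  have h2 : μ ≤ d * μ := Nat.le_mul_of_pos_left μ h.hd1
  omega

theorem le_q {n d : ℕ} (hd : 1 ≤ d) : n ≤ 64 * (n * d) + ed d := by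
  have : n ≤ n * d := Nat.le_mul_of_pos_right n hd
  omega

theorem gnohost [Nonempty W] [Fintype V] {G : SimpleGraph W} (hG : ¬ H5.IsContained G)
    {H : SimpleGraph V} {S A B : Finset V} {s d D M μ Δ : ℕ} (h : GDat H S A B s d D M μ)
    (hno : ∀ Z : Finset W, ¬ Emb H G univ Z)
    (hf : ∀ Q : Finset W, (Q.filter (fun x => (nb G Q x).card < Δ)).card < M)
    (hΔ : 32768 * ed d ≤ Δ) (R : Finset W) (hRd : ∀ x ∈ R, (nb G R x).card ≤ Δ) :
    ∀ R' ⊆ R, M ≤ 8 * R'.card → ∀ Q : Finset W,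
      (∀ x ∈ Q, (nb G R' x).card ≤ Δ) → Q.card < 64 * M := by
  have hMpos := h.M_pos
  have hMD : 1024 * D ^ 4 ≤ M := by
    have := h.hMD
    omega
  have hMs : 67108864 * s ^ 5 ≤ M ^ 2 := by
    have := h.hMs
    omega
  have hed : 1 ≤ ed d := by
    rw [ed]
    omega
  intro R' hR' hR'c Q hQ
  by_contra hcon
  push Not at hcon
  obtain ⟨P, -, hPM, hP⟩ := core' hno (by omega) h.hVμ h.hμ h.Mμ R' Δ (by omega) hR'c
    (fun x hx => (card_le_card (nb_mono G hR' x)).trans (hRd x (hR' hx)))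
  exact hP P subset_rfl Q hQ (gbig hG H S A B s (64 * (P.card * d) + ed d) D Δ M h.hs1 h.hD1 h.hS
    h.hBD P (fun x _ => h.hcov x) (le_q h.hd1)
    (embA hG h.hd1 h.hAD inter_subset_right (card_le_card inter_subset_left))
    (q_small h.hμ1 h.hMμ hPM hΔ) hMD hMs hf Q hcon)

/-- The final greedy step. -/
theorem gfinish [Nonempty W] [Fintype V] {G : SimpleGraph W} (hG : ¬ H5.IsContained G)
    {H : SimpleGraph V} {S A B : Finset V} {s d D M μ : ℕ} (h : GDat H S A B s d D M μ)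
    (hno : ∀ Z : Finset W, ¬ Emb H G univ Z) (E2 : ℕ) (hE1 : 32768 * ed d ≤ E2)
    (hE2 : E2 ^ 2 ≤ 1024 * M)
    (X XS : Finset W) (hX : M ≤ 8 * X.card) (hXd : ∀ x ∈ X, (nb G X x).card ≤ E2)
    (hsep : Sep G XS X) (hXS : Emb H G S XS) : False := by
  have hMpos := h.M_pos
  have hed : 1 ≤ ed d := by
    rw [ed]
    omega
  obtain ⟨P, hPc, hPM, hP⟩ := core' hno (by omega) h.hVμ h.hμ h.Mμ X E2 (by omega) hX hXd
  have hq := q_small h.hμ1 h.hMμ hPM hE1
  set PA := P ∩ A with hPA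
  set PB := P ∩ B with hPB
  have hPAc : PA.card ≤ P.card := card_le_card inter_subset_left
  have hPBc : PB.card ≤ P.card := card_le_card inter_subset_left
  have hPE : 16 * (P.card * E2) ≤ M := by
    have h1 : 1024 * (16 * (P.card * E2)) ≤ 1024 * M := by
      calc 1024 * (16 * (P.card * E2)) = 16384 * P.card * E2 := by ring
        _ ≤ E2 * E2 := Nat.mul_le_mul_right _ hPc
        _ = E2 ^ 2 := by ring
        _ ≤ _ := hE2
    exact Nat.le_of_mul_le_mul_left h1 (by norm_num)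
  have hEM : E2 ≤ M := by
    by_contra hcon
    push Not at hcon
    have h1 := Nat.pow_lt_pow_left hcon (n := 2) (by norm_num)
    have h2 : 1024 * M ≤ M * M := Nat.mul_le_mul_right _ (by omega)
    have h3 : M ^ 2 = M * M := by ring
    omega
  have hDE : 64 * (D * E2) ≤ M := by
    by_contra hcon
    push Not at hcon
    have h1 := Nat.pow_lt_pow_left hcon (n := 2) (by norm_num)
    have h2 : D ^ 2 ≤ D ^ 4 := Nat.pow_le_pow_right h.hD1 (by norm_num)
    have h3 := h.hMD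
    have h4 : (64 * (D * E2)) ^ 2 ≤ M ^ 2 := by
      calc (64 * (D * E2)) ^ 2 = 4096 * D ^ 2 * E2 ^ 2 := by ring
        _ ≤ 4096 * D ^ 2 * (1024 * M) := Nat.mul_le_mul_left _ hE2
        _ = 4194304 * D ^ 2 * M := by ring
        _ ≤ M * M := Nat.mul_le_mul_right _ (by omega)
        _ = M ^ 2 := by ring
    omega
  obtain ⟨X₁, hX₁, hX₁c, e1⟩ := (embA hG h.hd1 h.hAD (PA := PA) inter_subset_right hPAc X
    (by omega)).image
  obtain ⟨Y, hY, hYc, hsep'⟩ := pick G X X₁ E2 (M / 32) (fun x hx => hXd x (hX₁ hx)) (by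
    have h1 : X₁.card * (E2 + 1) ≤ P.card * E2 + P.card := by
      calc X₁.card * (E2 + 1) ≤ P.card * (E2 + 1) := Nat.mul_le_mul_right _ (by omega)
        _ = _ := by ring
    omega)
  have e2 : Emb H G PB Y := embed_degenerate H G PB D (h.hBD.mono inter_subset_right le_rfl) Y
    E2 (fun z hz => (card_le_card (nb_mono G hY z)).trans (hXd z (hY hz))) (by omega)
  have e3 : Emb H G (PA ∪ PB) X := (e1.union e2 hsep').mono (union_subset hX₁ hY)
  have e4 : Emb H G (S ∪ (PA ∪ PB)) (XS ∪ X) := hXS.union e3 hsep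
  refine hP (S ∪ (PA ∪ PB)) ?_ (XS ∪ X) ?_ e4
  · intro x hx
    have := h.hcov x
    simp only [hPA, hPB, mem_union, mem_inter] at this ⊢
    tauto
  · intro x hx
    rcases mem_union.1 hx with h1 | h1
    · have : nb G X x = ∅ := by
        rw [nb, filter_eq_empty_iff]
        exact fun z hz => (hsep x h1 z hz).2
      rw [this, card_empty]
      omega
    · exact hXd x h1

theorem gsrc1 [Nonempty W] [Fintype V] {G : SimpleGraph W} (hG : ¬ H5.IsContained G)
    {H : SimpleGraph V} {S A B : Finset V}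
    {s d D M μ : ℕ} (h : GDat H S A B s d D M μ) (hno : ∀ Z : Finset W, ¬ Emb H G univ Z)
    (X₀ : Finset W) (Dend : ℕ) (hDend : 32768 * ed d ≤ Dend) :
    GSrc H G (s + D) M Dend X₀ := by
  intro X _ Dc hDc hdeg hXc
  have hMpos := h.M_pos
  have hed : 1 ≤ ed d := by
    rw [ed]
    omega
  obtain ⟨P, -, hPM, hP⟩ := core' hno (by omega) h.hVμ h.hμ h.Mμ X Dc (by omega) hXc hdeg
  refine ⟨P ∩ A, (P ∩ S) ∪ (P ∩ B), P.card, 64 * (P.card * d) + ed d,
    q_small h.hμ1 h.hMμ hPM (by omega), le_q h.hd1, card_le_card inter_subset_left,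
    card_le_card (union_subset inter_subset_left inter_subset_left),
    embA hG h.hd1 h.hAD inter_subset_right (card_le_card inter_subset_left),
    Dg_union (h.hBD.mono inter_subset_right le_rfl)
      ((card_le_card inter_subset_right).trans h.hS), hP _ ?_ X hdeg⟩
  intro x hx
  have := h.hcov x
  simp only [mem_union, mem_inter] at this ⊢
  tauto

theorem gsrc2 [Nonempty W] [Fintype V] {G : SimpleGraph W} (hG : ¬ H5.IsContained G)
    {H : SimpleGraph V} {S A B : Finset V}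
    {s d D M μ : ℕ} (h : GDat H S A B s d D M μ) (hno : ∀ Z : Finset W, ¬ Emb H G univ Z)
    (X₀ XS : Finset W) (hsep : Sep G XS X₀) (hXS : Emb H G S XS) (Dend : ℕ)
    (hDend : 32768 * ed d ≤ Dend) : GSrc H G D M Dend X₀ := by
  intro X hX Dc hDc hdeg hXc
  have hMpos := h.M_pos
  have hed : 1 ≤ ed d := by
    rw [ed]
    omega
  obtain ⟨P, -, hPM, hP⟩ := core' hno (by omega) h.hVμ h.hμ h.Mμ X Dc (by omega) hXc hdeg
  refine ⟨P ∩ A, P ∩ B, P.card, 64 * (P.card * d) + ed d,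
    q_small h.hμ1 h.hMμ hPM (by omega), le_q h.hd1, card_le_card inter_subset_left,
    card_le_card inter_subset_left,
    embA hG h.hd1 h.hAD inter_subset_right (card_le_card inter_subset_left),
    h.hBD.mono inter_subset_right le_rfl, fun e3 => ?_⟩
  have e4 := hXS.union e3 (hsep.mono subset_rfl hX)
  refine hP _ ?_ (XS ∪ X) ?_ e4
  · intro x hx
    have := h.hcov x
    simp only [mem_union, mem_inter] at this ⊢
    tauto
  · intro x hx
    rcases mem_union.1 hx with h1 | h1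
    · have : nb G X x = ∅ := by
        rw [nb, filter_eq_empty_iff]
        exact fun z hz => (hsep x h1 z (hX hz)).2
      rw [this, card_empty]
      omega
    · exact hdeg x h1

theorem gsparse_core [Nonempty W] [Fintype V] {G : SimpleGraph W} (hG : ¬ H5.IsContained G)
    {H : SimpleGraph V} {S A B : Finset V} {s d D M μ : ℕ} (h : GDat H S A B s d D M μ)
    (U : Finset W) (hU : 256 * M ≤ U.card) : ∃ Z : Finset W, Emb H G univ Z := by
  by_contra hcon
  push Not at hcon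
  have hno : ∀ Z : Finset W, ¬ Emb H G univ Z := hcon
  have hMpos := h.M_pos
  have hs1 := h.hs1
  have hD1 := h.hD1
  have hMD := h.hMD
  have hMs := h.hMs
  -- numerical facts
  have hs45 : s ^ 4 ≤ s ^ 5 := Nat.pow_le_pow_right hs1 (by norm_num)
  have hD24 : D ^ 2 ≤ D ^ 4 := Nat.pow_le_pow_right hD1 (by norm_num)
  have hD12 : D ≤ D ^ 2 := Nat.le_self_pow (by norm_num) D
  have hs12 : s ≤ s ^ 2 := Nat.le_self_pow (by norm_num) s
  have hMs2 : 268435456 * s ^ 2 ≤ M := by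
    by_contra hc
    push Not at hc
    have h1 := Nat.pow_lt_pow_left hc (n := 2) (by norm_num)
    have h2 : (268435456 * s ^ 2) ^ 2 = 72057594037927936 * s ^ 4 := by ring
    omega
  have hsM : s ≤ M / 64 := by omega
  set E1 := M / (64 * s) with hE1
  set E2 := Nat.sqrt (1024 * M) with hE2
  have hsE1 : s * E1 ≤ M / 64 := by
    rw [Nat.le_div_iff_mul_le (by norm_num)]
    calc s * E1 * 64 = 64 * s * (M / (64 * s)) := by rw [hE1]; ring
      _ ≤ M := Nat.mul_div_le _ _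
  have hE1low : 2048 * (s + D) ≤ E1 := by
    rw [hE1, Nat.le_div_iff_mul_le (by omega)]
    have h1 : 2048 * (s + D) * (64 * s) = 131072 * s ^ 2 + 131072 * (s * D) := by ring
    have h2 : s * D ≤ s ^ 2 + D ^ 2 := by
      rcases Nat.le_total D s with h | h
      · calc s * D ≤ s * s := Nat.mul_le_mul_left _ h
          _ = s ^ 2 := by ring
          _ ≤ _ := Nat.le_add_right _ _
      · calc s * D ≤ D * D := Nat.mul_le_mul_right _ h
          _ = D ^ 2 := by ring
          _ ≤ _ := Nat.le_add_left _ _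
    omega
  have hE1c : 8589934592 * (s + D) ^ 2 * M ≤ E1 ^ 3 := by
    have h1 : M ≤ 128 * s * E1 := by
      have h2 : M < 64 * s * (E1 + 1) := Nat.lt_mul_div_succ M (by omega)
      have h3 : 64 * s * (E1 + 1) ≤ 64 * s * (2 * E1) := Nat.mul_le_mul_left _ (by omega)
      have h4 : 64 * s * (2 * E1) = 128 * s * E1 := by ring
      omega
    have h2 : (s + D) ^ 2 ≤ 2 * s ^ 2 + 2 * D ^ 2 := by
      nlinarith [sq_nonneg ((s : ℤ) - D), Nat.le_total s D]
    have h3 : s ^ 3 * D ^ 2 ≤ s ^ 5 + D ^ 8 := by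
      rcases Nat.le_total D s with h | h
      · calc s ^ 3 * D ^ 2 ≤ s ^ 3 * s ^ 2 := Nat.mul_le_mul_left _ (Nat.pow_le_pow_left h 2)
          _ = s ^ 5 := by ring
          _ ≤ _ := Nat.le_add_right _ _
      · calc s ^ 3 * D ^ 2 ≤ D ^ 3 * D ^ 2 := Nat.mul_le_mul_right _ (Nat.pow_le_pow_left h 3)
          _ = D ^ 5 := by ring
          _ ≤ D ^ 8 := Nat.pow_le_pow_right hD1 (by norm_num)
          _ ≤ _ := Nat.le_add_left _ _
    have h4 : s ^ 3 * (s + D) ^ 2 ≤ 4 * s ^ 5 + 2 * D ^ 8 := by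
      calc s ^ 3 * (s + D) ^ 2 ≤ s ^ 3 * (2 * s ^ 2 + 2 * D ^ 2) := Nat.mul_le_mul_left _ h2
        _ = 2 * s ^ 5 + 2 * (s ^ 3 * D ^ 2) := by ring
        _ ≤ 2 * s ^ 5 + 2 * (s ^ 5 + D ^ 8) :=
            Nat.add_le_add_left (Nat.mul_le_mul_left _ h3) _
        _ = _ := by ring
    have h5 : 19342813113834066795298816 * D ^ 8 ≤ M ^ 2 := by
      calc 19342813113834066795298816 * D ^ 8 = (4398046511104 * D ^ 4) ^ 2 := by ring
        _ ≤ M ^ 2 := Nat.pow_le_pow_left hMD 2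
    have h6 : 18014398509481984 * (s ^ 3 * (s + D) ^ 2) ≤ M ^ 2 := by omega
    have h7 : 2097152 * s ^ 3 * (8589934592 * (s + D) ^ 2 * M) ≤ 2097152 * s ^ 3 * E1 ^ 3 := by
      calc 2097152 * s ^ 3 * (8589934592 * (s + D) ^ 2 * M)
          = M * (18014398509481984 * (s ^ 3 * (s + D) ^ 2)) := by ring
        _ ≤ M * M ^ 2 := Nat.mul_le_mul_left _ h6
        _ = M ^ 3 := by ring
        _ ≤ (128 * s * E1) ^ 3 := Nat.pow_le_pow_left h1 3
        _ = _ := by ring
    exact Nat.le_of_mul_le_mul_left h7 (by positivity)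
  have hE2sq : E2 ^ 2 ≤ 1024 * M := by
    rw [Nat.pow_two]
    exact Nat.sqrt_le (1024 * M)
  have hE2pos : 1 ≤ E2 := by
    by_contra hc
    have h1 : E2 = 0 := by omega
    rw [hE2, Nat.sqrt_eq_zero] at h1
    omega
  have hE2low : 256 * M < E2 ^ 2 := by
    have h1 : 1024 * M < (E2 + 1) * (E2 + 1) := Nat.lt_succ_sqrt (1024 * M)
    have h2 : (E2 + 1) * (E2 + 1) ≤ (2 * E2) * (2 * E2) :=
      Nat.mul_le_mul (by omega) (by omega)
    have h3 : (2 * E2) * (2 * E2) = 4 * E2 ^ 2 := by ring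
    omega
  have hE2D : 2048 * D ≤ E2 := by
    by_contra hc
    push Not at hc
    have h1 := Nat.pow_lt_pow_left hc (n := 2) (by norm_num)
    have h2 : (2048 * D) ^ 2 = 4194304 * D ^ 2 := by ring
    omega
  have hE2c : 8589934592 * D ^ 2 * M ≤ E2 ^ 3 := by
    by_contra hc
    push Not at hc
    have h1 := Nat.pow_lt_pow_left hc (n := 2) (by norm_num)
    have h2 : (256 * M) ^ 3 ≤ (E2 ^ 2) ^ 3 := Nat.pow_le_pow_left hE2low.le 3
    have h3 : (8589934592 * D ^ 2 * M) ^ 2 ≤ (256 * M) ^ 3 := by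
      calc (8589934592 * D ^ 2 * M) ^ 2
          = 16777216 * M ^ 2 * (4398046511104 * D ^ 4) := by ring
        _ ≤ 16777216 * M ^ 2 * M := Nat.mul_le_mul_left _ hMD
        _ = _ := by ring
    have h4 : (E2 ^ 3) ^ 2 = (E2 ^ 2) ^ 3 := by ring
    omega
  have hE21 : E2 ≤ E1 := by
    rw [hE1, Nat.le_div_iff_mul_le (by omega)]
    by_contra hc
    push Not at hc
    have h1 := Nat.pow_lt_pow_left hc (n := 2) (by norm_num)
    have h2 : (E2 * (64 * s)) ^ 2 ≤ M ^ 2 := by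
      calc (E2 * (64 * s)) ^ 2 = 4096 * s ^ 2 * E2 ^ 2 := by ring
        _ ≤ 4096 * s ^ 2 * (1024 * M) := Nat.mul_le_mul_left _ hE2sq
        _ = 4194304 * s ^ 2 * M := by ring
        _ ≤ M * M := Nat.mul_le_mul_right _ (by omega)
        _ = M ^ 2 := by ring
    omega
  have hE1c' : 1048576 * (s + D) ^ 2 * M ≤ E1 ^ 3 := by
    have h1 : 1048576 * (s + D) ^ 2 * M = 1048576 * ((s + D) ^ 2 * M) := by ring
    have h2 : 8589934592 * (s + D) ^ 2 * M = 8589934592 * ((s + D) ^ 2 * M) := by ring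
    omega
  have hE2c' : 1048576 * D ^ 2 * M ≤ E2 ^ 3 := by
    have h1 : 1048576 * D ^ 2 * M = 1048576 * (D ^ 2 * M) := by ring
    have h2 : 8589934592 * D ^ 2 * M = 8589934592 * (D ^ 2 * M) := by ring
    omega
  have hed : 1 ≤ ed d := by
    rw [ed]
    omega
  have hMe : 4194304 * ed d ^ 2 ≤ M := by
    have h1 := ed_upper h.hd1
    have h2 := h.hMd
    omega
  have hE2e : 32768 * ed d ≤ E2 := by
    by_contra hc
    push Not at hc
    have h1 := Nat.pow_lt_pow_left hc (n := 2) (by norm_num)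
    have h2 : (32768 * ed d) ^ 2 = 1073741824 * ed d ^ 2 := by ring
    omega
  have hE1e : 32768 * ed d ≤ E1 := hE2e.trans hE21
  -- the extremal degree
  have hex : ∃ Δ, ¬ ∀ Q : Finset W, (Q.filter (fun x => (nb G Q x).card < Δ)).card < M := by
    refine ⟨U.card + 1, fun hall => ?_⟩
    have h1 := hall U
    have h2 : U.filter (fun x => (nb G U x).card < U.card + 1) = U := by
      refine filter_true_of_mem fun x _ => ?_
      exact Nat.lt_succ_of_le (card_le_card (nb_subset G U x))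
    rw [h2] at h1
    omega
  obtain ⟨Δ, hf, R, hR, hRd⟩ : ∃ Δ, (∀ Q : Finset W,
      (Q.filter (fun x => (nb G Q x).card < Δ)).card < M) ∧
      ∃ R : Finset W, R.card = M ∧ ∀ x ∈ R, (nb G R x).card ≤ Δ := by
    have h1 := Nat.find_spec hex
    have h2 := fun m (hm : m < Nat.find hex) => Nat.find_min hex hm
    rcases hk : Nat.find hex with _ | Δ
    · exfalso
      rw [hk] at h1
      refine h1 fun Q => ?_
      have h3 : Q.filter (fun x => (nb G Q x).card < 0) = ∅ := by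
        rw [filter_eq_empty_iff]
        exact fun x _ => Nat.not_lt_zero _
      rw [h3, card_empty]
      omega
    · rw [hk] at h1 h2
      refine ⟨Δ, not_not.1 (h2 Δ (Nat.lt_succ_self Δ)), ?_⟩
      push Not at h1
      obtain ⟨Q, hQ⟩ := h1
      obtain ⟨R, hR, hRc⟩ := exists_subset_card_eq hQ
      refine ⟨R, hRc, fun x hx => ?_⟩
      have h3 := (mem_filter.1 (hR hx)).2
      have h4 := card_le_card (nb_mono G (hR.trans (filter_subset _ _)) x)
      omega
  have hsumR : ∑ x ∈ R, (Pd G R x).card ≤ M * M := by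
    calc ∑ x ∈ R, (Pd G R x).card ≤ ∑ _x ∈ R, M :=
          sum_le_sum fun x _ => (card_le_card (Pd_subset G R x)).trans hR.le
      _ = M * M := by rw [sum_const, smul_eq_mul, hR]
  rcases Nat.lt_or_ge E2 Δ with hcase | hcase
  · have hΔ1 : 1 ≤ Δ := by omega
    have hΔE2 : E2 ^ 3 ≤ Δ ^ 3 := Nat.pow_le_pow_left hcase.le 3
    -- second phase
    have ph2 : ∀ (σ₀ : ℕ) (O Y O' : Finset W) (c : ℕ), D ≤ σ₀ → 2048 * σ₀ ≤ Δ →
        (∀ v ∈ O, 4294967296 * σ₀ ^ 2 * Pv G R v < Δ ^ 3) → 128 * M ≤ O.card → Y ⊆ R →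
        7 * M ≤ 16 * Y.card → (∀ x ∈ Y, Δ * O.card ≤ 2 * M * (nb G O x).card) →
        Inv G O O' Y Δ M c → (∀ x ∈ Y, (nb G Y x).card ≤ E1) → False := by
      intro σ₀ O Y O' c hσ₀ hσ₀Δ hOP hOc hYR hYc hYO hInv hYd
      obtain ⟨XS, Y₂, hY₂, hY₂c, hsep, hXS⟩ := embedS (G := G) h.hS hsM hsE1 Y (by omega) hYd
      have hY₂R : Y₂ ⊆ R := hY₂.trans hYR
      obtain ⟨O'', X, c', hX, hInv', hXd, hXc⟩ := gprocess (D₀ := min Δ E1) hG hD1 (by omega)
        (gsrc2 hG h hno Y₂ XS hsep hXS E2 hE2e) (Dend := E2) hE2c' (by omega)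
        (le_min hcase.le hE21) (min_le_left _ _) ((card_le_card hY₂R).trans hR.le) (by omega)
        hOc (fun x hx => hYO x (hY₂ hx))
        (fun v hv X hX hc => low_half R X v D σ₀ Δ hσ₀ (hX.trans hY₂R) hσ₀Δ (hOP v hv) hc)
        (hInv.subset hY₂) (fun x hx => le_min
          ((card_le_card (nb_mono G hY₂R x)).trans (hRd x (hY₂R hx)))
          ((card_le_card (nb_mono G hY₂ x)).trans (hYd x (hY₂ hx))))
      have h1 : Y₂.card - X.card ≤ (Y₂ \ X).card := le_card_sdiff X Y₂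
      exact gfinish hG h hno E2 hE2e hE2sq X XS (by omega) hXd (hsep.mono subset_rfl hX) hXS
    rcases Nat.lt_or_ge E1 Δ with hcase1 | hcase1
    · have hΔE1 : E1 ^ 3 ≤ Δ ^ 3 := Nat.pow_le_pow_left hcase1.le 3
      obtain ⟨O, Y, hYR, hYc, hOc, hYO, hOP⟩ := hosts_gen hG (by omega) hΔ1 R U hR hU (s + D)
        (hE1c.trans hΔE1) hsumR (gnohost hG h hno hf (by omega) R hRd)
      obtain ⟨O', X, c, hX, hInv, hXd, hXc⟩ := gprocess (D₀ := Δ) hG (by omega) (by omega)
        (gsrc1 hG h hno Y E1 hE1e) (Dend := E1) hE1c' (by omega) hcase1.le le_rfl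
        ((card_le_card hYR).trans hR.le) (by omega) hOc hYO
        (fun v hv X hX hc => low_half R X v (s + D) (s + D) Δ le_rfl (hX.trans hYR) (by omega)
          (hOP v hv) hc) (Inv.start G O Y Δ M)
        (fun x hx => (card_le_card (nb_mono G hYR x)).trans (hRd x (hYR hx)))
      have h1 : Y.card - X.card ≤ (Y \ X).card := le_card_sdiff X Y
      exact ph2 (s + D) O X O' c (by omega) (by omega) hOP hOc (hX.trans hYR) (by omega)
        (fun x hx => hYO x (hX hx)) hInv hXd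
    · obtain ⟨O, Y, hYR, hYc, hOc, hYO, hOP⟩ := hosts_gen hG (by omega) hΔ1 R U hR hU D
        (hE2c.trans hΔE2) hsumR (gnohost hG h hno hf (by omega) R hRd)
      exact ph2 D O Y O 0 le_rfl (by omega) hOP hOc hYR (by omega) hYO (Inv.start G O Y Δ M)
        (fun x hx => ((card_le_card (nb_mono G hYR x)).trans (hRd x (hYR hx))).trans hcase1)
  · obtain ⟨XS, Y, hY, hYc, hsep, hXS⟩ := embedS (G := G) h.hS hsM hsE1 R (by omega)
      (fun x hx => (hRd x hx).trans (hcase.trans hE21))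
    exact gfinish hG h hno E2 hE2e hE2sq Y XS (by omega)
      (fun x hx => ((card_le_card (nb_mono G hY x)).trans (hRd x (hY hx))).trans hcase) hsep hXS

end

end Pool.Agent.RamseyH5
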