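import Pool.Agent.RamseyH5.Chrom
import Pool.Agent.RamseyH5G.Sparse

set_option autoImplicit false

/-!
# The join step, first part of bounded degeneracy
-/

namespace Pool.Agent.RamseyH5

open Finset

section

open scoped Classical

variable {V W : Type}

/-- The refined bound for the number of pairs. -/
theorem gsum_pd [Nonempty W] {G : SimpleGraph W} (hG : ¬ H5.IsContained G)
    (H : SimpleGraph V) (PA PB : Finset V) (n q R F : ℕ) (X : Finset W) (hPA : PA.card ≤ n)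
    (hPB : PB.card ≤ n) (hnq : n ≤ q) (hPAq : EA H G PA q)
    (hno : ¬ Emb H G (PA ∪ PB) X) (h1 : ∀ Z ⊆ X, F ≤ Z.card → Emb H G PB Z)
    (h2 : ∀ Z ⊆ X, R ≤ Z.card → Emb H G PB Z) (hc : n * (4 * q + 1) + F ≤ X.card) :
    ∑ x ∈ X, (Pd G X x).card ≤ X.card * (R + q) := by
  set L := X.filter (fun x => (nb G X x).card < 4 * q) with hL
  have hLn : L.card ≤ q := by
    by_contra hcon
    push Not at hcon
    obtain ⟨X₁, hX₁, hX₁c, e1⟩ := (hPAq L hcon.le).image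
    have hX₁q : X₁.card * (4 * q + 1) ≤ n * (4 * q + 1) :=
      Nat.mul_le_mul_right _ (hX₁c.trans hPA)
    obtain ⟨Z, hZ, hZc, hsep⟩ := pick G X X₁ (4 * q) F
      (fun x hx => (mem_filter.1 (hX₁ hx)).2.le) (by omega)
    have e2 : Emb H G PB Z := h1 Z hZ hZc.ge
    exact hno ((e1.union e2 hsep).mono (union_subset (hX₁.trans (filter_subset _ _)) hZ))
  have hPd : ∀ x ∈ X \ L, (Pd G X x).card ≤ R := by
    intro x hx
    obtain ⟨hxX, hxL⟩ := mem_sdiff.1 hx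
    have hd : 4 * q ≤ (nb G X x).card := by
      by_contra h
      exact hxL (mem_filter.2 ⟨hxX, by omega⟩)
    by_contra hcon
    push Not at hcon
    have e2 : Emb H G PB (Pd G X x) := h2 _ (Pd_subset G X x) hcon.le
    obtain ⟨I, hI, hIc, e3⟩ := e2.image
    obtain ⟨Y, hY, hYc, hsep⟩ := pick G (nb G X x) I 2 q
      (fun y hy => nb_PP hG (mem_Pd.1 (hI hy)).2.1 (mem_Pd.1 (hI hy)).2.2 _
        (fun z hz => (mem_nb.1 hz).2)) (by
          have := Nat.mul_le_mul_right 3 (hIc.trans hPB)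
          omega)
    have e1 : Emb H G PA Y := hPAq Y hYc.ge
    exact hno ((e1.union e3 hsep.symm).mono (union_subset (hY.trans (nb_subset G X x))
      (hI.trans (Pd_subset G X x))))
  rw [← sum_sdiff (filter_subset (fun x => (nb G X x).card < 4 * q) X), ← hL]
  calc ∑ x ∈ X \ L, (Pd G X x).card + ∑ x ∈ L, (Pd G X x).card
      ≤ ∑ _x ∈ X \ L, R + ∑ _x ∈ L, X.card :=
        Nat.add_le_add (sum_le_sum hPd) (sum_le_sum fun x _ => card_le_card (Pd_subset G X x))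
    _ = (X \ L).card * R + L.card * X.card := by
        rw [sum_const, smul_eq_mul, sum_const, smul_eq_mul]
    _ ≤ X.card * R + q * X.card :=
        Nat.add_le_add (Nat.mul_le_mul_right _ (card_le_card sdiff_subset))
          (Nat.mul_le_mul_right _ hLn)
    _ = _ := by ring

/-- Embedding into a large set all of whose degrees are large. -/
theorem gbig3 [Nonempty W] {G : SimpleGraph W} (hG : ¬ H5.IsContained G)
    (H : SimpleGraph V) (A B P : Finset V) (σ n q Δ M Rb : ℕ) (hσ1 : 1 ≤ σ)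
    (hσ : Dg H P σ) (hP : P ⊆ A ∪ B) (hPn : P.card ≤ n) (hnq : n ≤ q)
    (hPAq : EA H G (P ∩ A) q)
    (hn1 : 1 ≤ n) (hnΔ : 16384 * q ≤ Δ) (hσΔ : 8 * σ ≤ Δ) (hRb : 32768 * σ ^ 2 * Rb ≤ Δ ^ 3)
    (Q : Finset W) (hM : 1 ≤ M) (hQ : 64 * M ≤ Q.card)
    (hf : (Q.filter (fun x => (nb G Q x).card < Δ)).card < M)
    (hsum : ¬ Emb H G ((P ∩ A) ∪ (P ∩ B)) Q → ∑ x ∈ Q, (Pd G Q x).card ≤ Q.card * Rb) :
    Emb H G P Q := by
  by_contra hno
  have hPeq : P ⊆ (P ∩ A) ∪ (P ∩ B) := by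
    intro x hx
    have := hP hx
    simp only [mem_union, mem_inter] at this ⊢
    tauto
  have hno' : ¬ Emb H G ((P ∩ A) ∪ (P ∩ B)) Q := fun h => hno (h.subset hPeq)
  refine countM hG Q σ q Δ Rb hσ1 (by omega) (by omega) (by omega) (by omega) hσΔ hRb
    (hsum hno') ?_ ?_
  · intro a haQ hda Z hZ hZc hZd
    by_contra hcon
    push Not at hcon
    have hPAc : (P ∩ A).card ≤ n := (card_le_card inter_subset_left).trans hPn
    have hPBc : (P ∩ B).card ≤ n := (card_le_card inter_subset_left).trans hPn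
    obtain ⟨X, hXP, hXc, e1⟩ := (hPAq _ hcon.le).image
    have hX3 : X.card * (2 + 1) ≤ n * 3 := Nat.mul_le_mul_right _ (hXc.trans hPAc)
    obtain ⟨Z', hZ', hZ'c, hsep⟩ := pick G Z X 2 (Z.card - 3 * n)
      (fun y hy => nb_PP hG (mem_Pd.1 (hXP hy)).2.1 (mem_Pd.1 (hXP hy)).2.2 _
        (fun z hz => (mem_nb.1 (hZ hz)).2)) (by omega)
    have hdiv : 8 * (σ * ((nb G Q a).card / (8 * σ))) ≤ (nb G Q a).card := by
      calc 8 * (σ * ((nb G Q a).card / (8 * σ))) = 8 * σ * ((nb G Q a).card / (8 * σ)) := by ring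
        _ ≤ _ := Nat.mul_div_le _ _
    have e2 : Emb H G (P ∩ B) Z' := embed_degenerate H G (P ∩ B) σ
      (hσ.mono inter_subset_left le_rfl) Z' ((nb G Q a).card / (8 * σ))
      (fun z hz => (card_le_card (nb_mono G hZ' z)).trans (hZd z (hZ' hz))) (by omega)
    exact hno' ((e1.union e2 hsep).mono (union_subset (hXP.trans (Pd_subset G Q a))
      (hZ'.trans (hZ.trans (nb_subset G Q a)))))
  · intro Wa hWa hWac Z hZ hZc hZd
    have hdiv : 8 * (q * (Wa.card / (8 * q))) ≤ Wa.card := by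
      calc 8 * (q * (Wa.card / (8 * q))) = 8 * q * (Wa.card / (8 * q)) := by ring
        _ ≤ _ := Nat.mul_div_le _ _
    refine hno ((embed_degenerate H G P q ((Dg_card H P).mono subset_rfl (hPn.trans hnq)) Z
      (Wa.card / (8 * q)) hZd (by omega)).mono (hZ.trans hWa))

/-- Data of the graph to be embedded. -/
structure GDat3 (H : SimpleGraph V) (A B : Finset V) (f d σ M μ Ck : ℕ) [Fintype V] : Prop where
  hd1 : 1 ≤ d
  hAD : Dg H A d
  hcov : ∀ v, v ∈ A ∪ B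
  hσ1 : 1 ≤ σ
  hσ : Dg H univ σ
  hσμ : σ ^ 2 ≤ 4 * μ
  hμσ : μ ≤ σ ^ 2
  hVμ : Fintype.card V ≤ μ
  hμ : ∑ v : V, (univ.filter (fun u => H.Adj v u)).card ≤ μ
  hMμ : 33554432 * (d * μ) ≤ M
  hMe : 524288 * (σ * ed d) ≤ M
  hMe2 : 320 * ed d ^ 2 ≤ M
  hN2 : Ck * (16 * μ) ^ (10 * f + 8) * (34359738368 * σ ^ 2) ^ (4 * f + 4) ≤
    M ^ (10 * f + 8) * (M / (16 * σ)) ^ (2 * f + 4)
  hN3 : 45671926166590716193865151022383844364247891968 * (d ^ 3 * μ ^ 6 * σ ^ 4) ≤ M ^ 7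

theorem gnumR {f σ M μ Ck E Δ n q : ℕ} (hσ1 : 1 ≤ σ) (hM : 1 ≤ M)
    (hN2 : Ck * (16 * μ) ^ (10 * f + 8) * (34359738368 * σ ^ 2) ^ (4 * f + 4) ≤
      M ^ (10 * f + 8) * E ^ (2 * f + 4)) (hE : 4096 * σ ≤ E) (hEΔ : E ≤ Δ)
    (hn1 : 1 ≤ q) (hn : 16384 * q ≤ Δ) (hnM : n * M ≤ 16 * μ * Δ) :
    8589934592 * σ ^ 2 * (Δ ^ 3 / (17179869184 * σ ^ 2) + q) ≤ Δ ^ 3 ∧
      Ck * n ^ (10 * f + 8) ≤ (Δ ^ 3 / (17179869184 * σ ^ 2)) ^ (4 * f + 4) := by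
  set R := Δ ^ 3 / (17179869184 * σ ^ 2) with hR
  have hσ2 : 0 < σ ^ 2 := Nat.pow_pos hσ1
  have hRΔ : 17179869184 * σ ^ 2 * R ≤ Δ ^ 3 := Nat.mul_div_le _ _
  have hΔR : Δ ^ 3 < 17179869184 * σ ^ 2 * (R + 1) := Nat.lt_mul_div_succ _ (by omega)
  have hΔσ : 1048576 * σ ^ 2 ≤ Δ ^ 2 := by
    calc 1048576 * σ ^ 2 = (1024 * σ) ^ 2 := by ring
      _ ≤ Δ ^ 2 := Nat.pow_le_pow_left (by omega) 2
  have hnR : q ≤ R := by
    rw [hR, Nat.le_div_iff_mul_le (by omega)]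
    calc q * (17179869184 * σ ^ 2) = 1048576 * σ ^ 2 * (16384 * q) := by ring
      _ ≤ Δ ^ 2 * Δ := Nat.mul_le_mul hΔσ hn
      _ = Δ ^ 3 := by ring
  refine ⟨?_, ?_⟩
  · calc 8589934592 * σ ^ 2 * (R + q) ≤ 8589934592 * σ ^ 2 * (2 * R) :=
          Nat.mul_le_mul_left _ (by omega)
      _ = 17179869184 * σ ^ 2 * R := by ring
      _ ≤ Δ ^ 3 := hRΔ
  · have h1 : Δ ^ 3 ≤ 34359738368 * σ ^ 2 * R := by
      calc Δ ^ 3 ≤ 17179869184 * σ ^ 2 * (R + 1) := hΔR.le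
        _ ≤ 17179869184 * σ ^ 2 * (2 * R) := Nat.mul_le_mul_left _ (by omega)
        _ = _ := by ring
    refine cancel_pow (K := 34359738368 * σ ^ 2) (M := M) (a := 10 * f + 8) (by omega) (by omega) ?_
    calc Ck * n ^ (10 * f + 8) * M ^ (10 * f + 8) * (34359738368 * σ ^ 2) ^ (4 * f + 4)
        = Ck * (n * M) ^ (10 * f + 8) * (34359738368 * σ ^ 2) ^ (4 * f + 4) := by
          rw [mul_pow]; ring
      _ ≤ Ck * (16 * μ * Δ) ^ (10 * f + 8) * (34359738368 * σ ^ 2) ^ (4 * f + 4) :=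
          Nat.mul_le_mul_right _ (Nat.mul_le_mul_left _ (Nat.pow_le_pow_left hnM _))
      _ = Ck * (16 * μ) ^ (10 * f + 8) * (34359738368 * σ ^ 2) ^ (4 * f + 4) *
          Δ ^ (10 * f + 8) := by rw [mul_pow (16 * μ) Δ]; ring
      _ ≤ M ^ (10 * f + 8) * E ^ (2 * f + 4) * Δ ^ (10 * f + 8) := Nat.mul_le_mul_right _ hN2
      _ ≤ M ^ (10 * f + 8) * Δ ^ (2 * f + 4) * Δ ^ (10 * f + 8) :=
          Nat.mul_le_mul_right _ (Nat.mul_le_mul_left _ (Nat.pow_le_pow_left hEΔ _))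
      _ = M ^ (10 * f + 8) * (Δ ^ 3) ^ (4 * f + 4) := by
          rw [← pow_mul, mul_assoc, ← pow_add]
          congr 2
          ring
      _ ≤ _ := Nat.mul_le_mul_left _ (Nat.pow_le_pow_left h1 _)

theorem gnumR2 {f σ M μ Ck E Δ n q : ℕ} (hσ1 : 1 ≤ σ) (hM : 1 ≤ M)
    (hN2 : Ck * (16 * μ) ^ (10 * f + 8) * (34359738368 * σ ^ 2) ^ (4 * f + 4) ≤
      M ^ (10 * f + 8) * E ^ (2 * f + 4)) (hE : 4096 * σ ≤ E) (hEΔ : E ≤ Δ)
    (hn1 : 1 ≤ q) (hn : 16384 * q ≤ Δ) (hnM : n * M ≤ 16 * μ * Δ) :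
    17592186044416 * σ ^ 4 * (Nat.sqrt (E * Δ ^ 5 / (70368744177664 * σ ^ 4)) + q) ^ 2 ≤
      E * Δ ^ 5 ∧
      Ck * n ^ (10 * f + 8) ≤
        (Nat.sqrt (E * Δ ^ 5 / (70368744177664 * σ ^ 4))) ^ (4 * f + 4) := by
  set y := E * Δ ^ 5 / (70368744177664 * σ ^ 4) with hy
  set R := Nat.sqrt y with hR
  have hσ2 : 0 < σ ^ 2 := Nat.pow_pos hσ1
  have hσ4 : 0 < σ ^ 4 := Nat.pow_pos hσ1
  have hqE : 70368744177664 * σ ^ 4 * y ≤ E * Δ ^ 5 := Nat.mul_div_le _ _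
  have hEq : E * Δ ^ 5 < 70368744177664 * σ ^ 4 * (y + 1) := Nat.lt_mul_div_succ _ (by omega)
  have hRq : R ^ 2 ≤ y := by
    rw [Nat.pow_two]
    exact Nat.sqrt_le y
  have hqR : y < (R + 1) * (R + 1) := Nat.lt_succ_sqrt y
  have hEσ : 262144 * σ ^ 4 ≤ E * Δ ^ 3 := by
    calc 262144 * σ ^ 4 ≤ 281474976710656 * σ ^ 4 := Nat.mul_le_mul_right _ (by norm_num)
      _ = (4096 * σ) * (4096 * σ) ^ 3 := by ring
      _ ≤ E * Δ ^ 3 := Nat.mul_le_mul hE (Nat.pow_le_pow_left (hE.trans hEΔ) 3)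
  have hnR : q ≤ R := by
    rw [hR, Nat.le_sqrt, hy, Nat.le_div_iff_mul_le (by omega)]
    calc q * q * (70368744177664 * σ ^ 4) = 262144 * σ ^ 4 * (16384 * q) ^ 2 := by ring
      _ ≤ E * Δ ^ 3 * Δ ^ 2 := Nat.mul_le_mul hEσ (Nat.pow_le_pow_left hn 2)
      _ = E * Δ ^ 5 := by ring
  refine ⟨?_, ?_⟩
  · calc 17592186044416 * σ ^ 4 * (R + q) ^ 2 ≤ 17592186044416 * σ ^ 4 * (2 * R) ^ 2 :=
          Nat.mul_le_mul_left _ (Nat.pow_le_pow_left (by omega) 2)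
      _ = 70368744177664 * σ ^ 4 * R ^ 2 := by ring
      _ ≤ 70368744177664 * σ ^ 4 * y := Nat.mul_le_mul_left _ hRq
      _ ≤ _ := hqE
  · have h1 : E * Δ ^ 5 ≤ (34359738368 * σ ^ 2 * R) ^ 2 := by
      have h2 : y + 1 ≤ 4 * R ^ 2 := by
        have h3 : (R + 1) * (R + 1) ≤ (2 * R) * (2 * R) :=
          Nat.mul_le_mul (by omega) (by omega)
        have h4 : (2 * R) * (2 * R) = 4 * R ^ 2 := by ring
        omega
      calc E * Δ ^ 5 ≤ 70368744177664 * σ ^ 4 * (y + 1) := hEq.le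
        _ ≤ 70368744177664 * σ ^ 4 * (4 * R ^ 2) := Nat.mul_le_mul_left _ h2
        _ = 281474976710656 * (σ ^ 4 * R ^ 2) := by ring
        _ ≤ 1180591620717411303424 * (σ ^ 4 * R ^ 2) := Nat.mul_le_mul_right _ (by norm_num)
        _ = (34359738368 * σ ^ 2 * R) ^ 2 := by ring
    refine cancel_pow (K := 34359738368 * σ ^ 2) (M := M) (a := 10 * f + 8) (by omega) (by omega) ?_
    calc Ck * n ^ (10 * f + 8) * M ^ (10 * f + 8) * (34359738368 * σ ^ 2) ^ (4 * f + 4)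
        = Ck * (n * M) ^ (10 * f + 8) * (34359738368 * σ ^ 2) ^ (4 * f + 4) := by
          rw [mul_pow]; ring
      _ ≤ Ck * (16 * μ * Δ) ^ (10 * f + 8) * (34359738368 * σ ^ 2) ^ (4 * f + 4) :=
          Nat.mul_le_mul_right _ (Nat.mul_le_mul_left _ (Nat.pow_le_pow_left hnM _))
      _ = Ck * (16 * μ) ^ (10 * f + 8) * (34359738368 * σ ^ 2) ^ (4 * f + 4) *
          Δ ^ (10 * f + 8) := by rw [mul_pow (16 * μ) Δ]; ring
      _ ≤ M ^ (10 * f + 8) * E ^ (2 * f + 4) * Δ ^ (10 * f + 8) := Nat.mul_le_mul_right _ hN2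
      _ = M ^ (10 * f + 8) * (E ^ (2 * f + 2) * Δ ^ (10 * f + 8) * E ^ 2) := by
          rw [show 2 * f + 4 = (2 * f + 2) + 2 by ring, pow_add]
          ring
      _ ≤ M ^ (10 * f + 8) * (E ^ (2 * f + 2) * Δ ^ (10 * f + 8) * Δ ^ 2) :=
          Nat.mul_le_mul_left _ (Nat.mul_le_mul_left _ (Nat.pow_le_pow_left hEΔ _))
      _ = M ^ (10 * f + 8) * (E * Δ ^ 5) ^ (2 * f + 2) := by
          rw [mul_pow, ← pow_mul, mul_assoc (E ^ (2 * f + 2)), ← pow_add]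
          congr 3
          ring
      _ ≤ M ^ (10 * f + 8) * ((34359738368 * σ ^ 2 * R) ^ 2) ^ (2 * f + 2) :=
          Nat.mul_le_mul_left _ (Nat.pow_le_pow_left h1 _)
      _ = _ := by
          rw [← pow_mul]
          congr 2
          ring

end

end Pool.Agent.RamseyH5
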