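import Pool.Agent.RamseyH5G.Refine

set_option autoImplicit false

/-!
# The join step, first part of bounded degeneracy: assembly
-/

namespace Pool.Agent.RamseyH5

open Finset

section

open scoped Classical

variable {V W : Type}

theorem gstep [Nonempty W] [Fintype V] {G : SimpleGraph W} (hG : ¬ H5.IsContained G)
    {H : SimpleGraph V} {A B : Finset V} {f d σ M μ Ck : ℕ} (h : GDat3 H A B f d σ M μ Ck)
    (hE1 : ∀ P' ⊆ B, ∀ Z : Finset W, M ≤ 16 * Z.card → Emb H G P' Z)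
    (hE2 : ∀ P' ⊆ B, ∀ n : ℕ, P'.card ≤ n → 1 ≤ n → ∀ Z : Finset W,
      Ck * n ^ (10 * f + 8) ≤ Z.card ^ (4 * f + 4) → Emb H G P' Z)
    (U : Finset W) (hU : 256 * M ≤ U.card) : ∃ Z : Finset W, Emb H G univ Z := by
  by_contra hcon
  push Not at hcon
  have hno : ∀ Z : Finset W, ¬ Emb H G univ Z := hcon
  have hσ1 := h.hσ1
  have hMμd := h.hMμ
  have hd1 := h.hd1
  have hMe2 := h.hMe2
  have hdμ : μ ≤ d * μ := Nat.le_mul_of_pos_left μ hd1
  have hMμ : 262144 * μ ≤ M := by omega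
  have hed : 1 ≤ ed d := by
    rw [ed]
    omega
  have hσμ := h.hσμ
  have hμσ := h.hμσ
  have hσ2 : 1 ≤ σ ^ 2 := Nat.pow_pos hσ1
  have hσσ : σ ≤ σ ^ 2 := Nat.le_self_pow (by norm_num) σ
  have hμ1 : 1 ≤ μ := by omega
  have hMσ : 65536 * σ ^ 2 ≤ M := by omega
  have hM65 : 65536 ≤ M := by omega
  set E := M / (16 * σ) with hEdef
  have hN2 := h.hN2
  rw [← hEdef] at hN2
  have hσE : 16 * (σ * E) ≤ M := by
    calc 16 * (σ * E) = 16 * σ * (M / (16 * σ)) := by rw [hEdef]; ring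
      _ ≤ M := Nat.mul_div_le _ _
  have hElow : 4096 * σ ≤ E := by
    rw [hEdef, Nat.le_div_iff_mul_le (by omega)]
    have : 4096 * σ * (16 * σ) = 65536 * σ ^ 2 := by ring
    omega
  have hE1' : 1 ≤ E := by omega
  have hEe : 32768 * ed d ≤ E := by
    rw [hEdef, Nat.le_div_iff_mul_le (by omega)]
    calc 32768 * ed d * (16 * σ) = 524288 * (σ * ed d) := by ring
      _ ≤ M := h.hMe
  obtain ⟨E', hEE', hE'a, hE'b⟩ := exists_threshold E (1099511627776 * σ ^ 2 * M) hE1'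
  -- the size of the core
  have hbound : 8388608 * (d * μ ^ 2 * E' ^ 2) ≤ M ^ 3 := by
    rcases hE'b with hb | hb
    · rw [hb]
      have h1 : 256 * (σ * E) ^ 2 ≤ M ^ 2 := by
        calc 256 * (σ * E) ^ 2 = (16 * (σ * E)) ^ 2 := by ring
          _ ≤ M ^ 2 := Nat.pow_le_pow_left hσE 2
      calc 8388608 * (d * μ ^ 2 * E ^ 2) = 32768 * (d * μ) * (256 * (μ * E ^ 2)) := by ring
        _ ≤ 32768 * (d * μ) * (256 * (σ ^ 2 * E ^ 2)) :=
            Nat.mul_le_mul_left _ (Nat.mul_le_mul_left _ (Nat.mul_le_mul_right _ hμσ))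
        _ = 32768 * (d * μ) * (256 * (σ * E) ^ 2) := by ring
        _ ≤ 32768 * (d * μ) * M ^ 2 := Nat.mul_le_mul_left _ h1
        _ ≤ M * M ^ 2 := Nat.mul_le_mul_right _ (by omega)
        _ = M ^ 3 := by ring
    · by_contra hc
      push Not at hc
      have h1 := Nat.pow_lt_pow_left hc (n := 3) (by norm_num)
      have h2 : (E' ^ 3) ^ 2 ≤ (8 * (1099511627776 * σ ^ 2 * M)) ^ 2 := Nat.pow_le_pow_left hb 2
      have h3 : (8388608 * (d * μ ^ 2 * E' ^ 2)) ^ 3 ≤ (M ^ 3) ^ 3 := by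
        calc (8388608 * (d * μ ^ 2 * E' ^ 2)) ^ 3 =
              590295810358705651712 * (d ^ 3 * μ ^ 6) * (E' ^ 3) ^ 2 := by ring
          _ ≤ 590295810358705651712 * (d ^ 3 * μ ^ 6) *
              (8 * (1099511627776 * σ ^ 2 * M)) ^ 2 :=
              Nat.mul_le_mul_left _ h2
          _ = 45671926166590716193865151022383844364247891968 *
              (d ^ 3 * μ ^ 6 * σ ^ 4) * M ^ 2 := by ring
          _ ≤ M ^ 7 * M ^ 2 := Nat.mul_le_mul_right _ h.hN3
          _ = (M ^ 3) ^ 3 := by ring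
      omega
  have hnsq : ∀ n Dc : ℕ, Dc ≤ E' → n * M ≤ 16 * μ * Dc → 32768 * (d * n ^ 2) ≤ M := by
    intro n Dc hDc hn
    have h1 : M ^ 2 * (32768 * (d * n ^ 2)) ≤ M ^ 2 * M := by
      calc M ^ 2 * (32768 * (d * n ^ 2)) = 32768 * d * (n * M) ^ 2 := by ring
        _ ≤ 32768 * d * (16 * μ * Dc) ^ 2 := Nat.mul_le_mul_left _ (Nat.pow_le_pow_left hn 2)
        _ ≤ 32768 * d * (16 * μ * E') ^ 2 :=
            Nat.mul_le_mul_left _ (Nat.pow_le_pow_left (Nat.mul_le_mul_left _ hDc) 2)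
        _ = 8388608 * (d * μ ^ 2 * E' ^ 2) := by ring
        _ ≤ M ^ 3 := hbound
        _ = _ := by ring
    exact Nat.le_of_mul_le_mul_left h1 (Nat.pow_pos (by omega))
  have hPeq : ∀ P : Finset V, P ⊆ (P ∩ A) ∪ (P ∩ B) := by
    intro P x hx
    have := h.hcov x
    simp only [mem_union, mem_inter] at this ⊢
    tauto
  -- the refined bound
  have hsumR : ∀ (P : Finset V) (Dc R : ℕ) (X : Finset W), Dc ≤ E' →
      P.card * M ≤ 16 * μ * Dc → ¬ Emb H G ((P ∩ A) ∪ (P ∩ B)) X → M ≤ 8 * X.card →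
      1 ≤ P.card → Ck * P.card ^ (10 * f + 8) ≤ R ^ (4 * f + 4) →
      ∑ x ∈ X, (Pd G X x).card ≤ X.card * (R + (64 * (P.card * d) + ed d)) := by
    intro P Dc R X hDc hPM hnoX hX hP1 hR
    have hsq := hnsq P.card Dc hDc hPM
    refine gsum_pd hG H (P ∩ A) (P ∩ B) P.card (64 * (P.card * d) + ed d) R (M / 16 + 1) X
      (card_le_card inter_subset_left) (card_le_card inter_subset_left) (le_q hd1)
      (embA hG hd1 h.hAD inter_subset_right (card_le_card inter_subset_left)) hnoX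
      (fun Z _ hZ => hE1 (P ∩ B) inter_subset_right Z (by omega))
      (fun Z _ hZ => hE2 (P ∩ B) inter_subset_right P.card (card_le_card inter_subset_left) hP1 Z
        (hR.trans (Nat.pow_le_pow_left hZ _))) ?_
    have h1 : P.card * (4 * (64 * (P.card * d) + ed d) + 1) =
      256 * (d * P.card ^ 2) + 4 * (P.card * ed d) + P.card := by ring
    have h2 : P.card ≤ P.card ^ 2 := Nat.le_self_pow (by norm_num) _
    have h3 : P.card ^ 2 ≤ d * P.card ^ 2 := Nat.le_mul_of_pos_left _ hd1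
    have h4 : P.card * ed d ≤ P.card ^ 2 + ed d ^ 2 := by
      rcases Nat.le_total P.card (ed d) with h | h
      · calc P.card * ed d ≤ ed d * ed d := Nat.mul_le_mul_right _ h
          _ = ed d ^ 2 := by ring
          _ ≤ _ := Nat.le_add_left _ _
      · calc P.card * ed d ≤ P.card * P.card := Nat.mul_le_mul_left _ h
          _ = P.card ^ 2 := by ring
          _ ≤ _ := Nat.le_add_right _ _
    have h5 : ed d ≤ ed d ^ 2 := Nat.le_self_pow (by norm_num) _
    omega
  -- the extremal degree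
  have hex : ∃ Δ, ¬ ∀ Q : Finset W, (Q.filter (fun x => (nb G Q x).card < Δ)).card < M := by
    refine ⟨U.card + 1, fun hall => ?_⟩
    have h1 := hall U
    have h2 : U.filter (fun x => (nb G U x).card < U.card + 1) = U := by
      refine filter_true_of_mem fun x _ => ?_
      exact Nat.lt_succ_of_le (card_le_card (nb_subset G U x))
    rw [h2] at h1
    omega
  obtain ⟨Δ, hf, R, hR, hRd⟩ : ∃ Δ, (∀ Q : Finset W,
      (Q.filter (fun x => (nb G Q x).card < Δ)).card < M) ∧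
      ∃ R : Finset W, R.card = M ∧ ∀ x ∈ R, (nb G R x).card ≤ Δ := by
    have h1 := Nat.find_spec hex
    have h2 := fun m (hm : m < Nat.find hex) => Nat.find_min hex hm
    rcases hk : Nat.find hex with _ | Δ
    · exfalso
      rw [hk] at h1
      refine h1 fun Q => ?_
      have h3 : Q.filter (fun x => (nb G Q x).card < 0) = ∅ := by
        rw [filter_eq_empty_iff]
        exact fun x _ => Nat.not_lt_zero _
      rw [h3, card_empty]
      omega
    · rw [hk] at h1 h2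
      refine ⟨Δ, not_not.1 (h2 Δ (Nat.lt_succ_self Δ)), ?_⟩
      push Not at h1
      obtain ⟨Q, hQ⟩ := h1
      obtain ⟨R, hR, hRc⟩ := exists_subset_card_eq hQ
      refine ⟨R, hRc, fun x hx => ?_⟩
      have h3 := (mem_filter.1 (hR hx)).2
      have h4 := card_le_card (nb_mono G (hR.trans (filter_subset _ _)) x)
      omega
  have hRX : ∀ X ⊆ R, ∀ x ∈ X, (nb G X x).card ≤ Δ := fun X hX x hx =>
    (card_le_card (nb_mono G hX x)).trans (hRd x (hX hx))
  -- the final greedy step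
  have fin : ∀ X : Finset W, M ≤ 8 * X.card → (∀ x ∈ X, (nb G X x).card ≤ E) → False := by
    intro X hX hXd
    obtain ⟨P, hPc, -, hP⟩ := core' hno (by omega) h.hVμ h.hμ hMμ X E hE1' hX hXd
    have hEM : E ≤ σ * E := Nat.le_mul_of_pos_left E hσ1
    exact hP P subset_rfl X hXd (embed_degenerate H G P σ (h.hσ.mono (subset_univ P) le_rfl) X E
      hXd (by omega))
  rcases Nat.lt_or_ge E Δ with hcase | hcase
  swap
  · exact fin R (by omega) (fun x hx => (hRd x hx).trans hcase)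
  have hΔ1 : 1 ≤ Δ := by omega
  -- few vertices have small degree into a large part of `R`
  have nohost : ∀ R' ⊆ R, M ≤ 8 * R'.card → ∀ Q : Finset W,
      (∀ x ∈ Q, (nb G R' x).card ≤ Δ) → Q.card < 64 * M := by
    intro R' hR' hR'c Q₀ hQ₀
    by_contra hc
    push Not at hc
    obtain ⟨Q, hQ, hQc⟩ := exists_subset_card_eq hc
    have hQd : ∀ x ∈ Q, (nb G R' x).card ≤ Δ := fun x hx => hQ₀ x (hQ hx)
    obtain ⟨P, hPc, hPM, hP⟩ := core' hno (by omega) h.hVμ h.hμ hMμ R' Δ hΔ1 hR'c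
      (fun x hx => (card_le_card (nb_mono G hR' x)).trans (hRd x (hR' hx)))
    have hP1 : 1 ≤ P.card := by
      by_contra h0
      have hP0 : P = ∅ := card_eq_zero.1 (by omega)
      refine hP P subset_rfl Q hQd ?_
      rw [hP0]
      exact Emb_empty H G Q
    have hnoQ : ¬ Emb H G ((P ∩ A) ∪ (P ∩ B)) Q := hP _ (hPeq P) Q hQd
    have hq : 16384 * (64 * (P.card * d) + ed d) ≤ Δ := q_small hμ1 hMμd hPM (by omega)
    have hEA : EA H G (P ∩ A) (64 * (P.card * d) + ed d) :=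
      embA hG hd1 h.hAD inter_subset_right (card_le_card inter_subset_left)
    refine hP P subset_rfl Q hQd ?_
    rcases Nat.lt_or_ge Δ E' with hE'c | hE'c
    · obtain ⟨n1, n2⟩ := gnumR hσ1 (by omega) hN2 hElow hcase.le
        (q := 64 * (P.card * d) + ed d) (by omega) hq hPM
      refine gbig3 hG H A B P σ P.card (64 * (P.card * d) + ed d) Δ M
        (Δ ^ 3 / (17179869184 * σ ^ 2) + (64 * (P.card * d) + ed d)) hσ1
        (h.hσ.mono (subset_univ P) le_rfl) (fun x _ => h.hcov x) le_rfl (le_q hd1) hEA hP1 hq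
        (by omega) ?_ Q
        (by omega) hQc.ge (hf Q) (fun hnoQ' => hsumR P Δ _ Q hE'c.le hPM hnoQ' (by omega) hP1 n2)
      refine le_trans ?_ n1
      exact Nat.mul_le_mul_right _ (Nat.mul_le_mul_right _ (by norm_num))
    · refine gbig3 hG H A B P σ P.card (64 * (P.card * d) + ed d) Δ M (64 * M) hσ1
        (h.hσ.mono (subset_univ P) le_rfl) (fun x _ => h.hcov x) le_rfl (le_q hd1) hEA hP1 hq
        (by omega) ?_ Q
        (by omega) hQc.ge (hf Q) (fun _ => ?_)
      · calc 32768 * σ ^ 2 * (64 * M) = 2097152 * (σ ^ 2 * M) := by ring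
          _ ≤ 1099511627776 * (σ ^ 2 * M) := Nat.mul_le_mul_right _ (by norm_num)
          _ = 1099511627776 * σ ^ 2 * M := by ring
          _ ≤ E' ^ 3 := hE'a
          _ ≤ Δ ^ 3 := Nat.pow_le_pow_left hE'c 3
      · calc ∑ x ∈ Q, (Pd G Q x).card ≤ ∑ _x ∈ Q, 64 * M :=
              sum_le_sum fun x _ => (card_le_card (Pd_subset G Q x)).trans hQc.le
          _ = Q.card * (64 * M) := by rw [sum_const, smul_eq_mul]
  -- the refined process
  have src2' : ∀ (X₀ : Finset W) (D₀ : ℕ), D₀ ≤ E' → X₀ ⊆ R → GSrc2 H G σ M E D₀ X₀ := by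
    intro X₀ D₀ hD₀ hX₀ X hX Dc hDc1 hDc2 hdeg hXc
    obtain ⟨P, hPc, hPM, hP⟩ := core' hno (by omega) h.hVμ h.hμ hMμ X Dc (by omega) hXc hdeg
    have hP1 : 1 ≤ P.card := by
      by_contra h0
      have hP0 : P = ∅ := card_eq_zero.1 (by omega)
      refine hP P subset_rfl X hdeg ?_
      rw [hP0]
      exact Emb_empty H G X
    have hnoX : ¬ Emb H G ((P ∩ A) ∪ (P ∩ B)) X := hP _ (hPeq P) X hdeg
    have hq : 16384 * (64 * (P.card * d) + ed d) ≤ Dc := q_small hμ1 hMμd hPM (by omega)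
    obtain ⟨n1, n2⟩ := gnumR2 hσ1 (by omega) hN2 hElow hDc1
      (q := 64 * (P.card * d) + ed d) (by omega) hq hPM
    refine ⟨P ∩ A, P ∩ B, P.card, 64 * (P.card * d) + ed d, _, hq, le_q hd1,
      card_le_card inter_subset_left, card_le_card inter_subset_left,
      embA hG hd1 h.hAD inter_subset_right (card_le_card inter_subset_left),
      h.hσ.mono (subset_univ _) le_rfl, hnoX, ?_, n1⟩
    refine (hsumR P Dc _ X (hDc2.trans hD₀) hPM hnoX hXc hP1 n2).trans ?_
    exact Nat.mul_le_mul_right _ ((card_le_card (hX.trans hX₀)).trans hR.le)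
  have ph2 : ∀ (O Y O' : Finset W) (c D₀ : ℕ), E ≤ D₀ → D₀ ≤ E' → D₀ ≤ Δ →
      (∀ v ∈ O, 4294967296 * σ ^ 2 * Pv G R v < Δ ^ 3) → 128 * M ≤ O.card → Y ⊆ R →
      7 * M ≤ 16 * Y.card → (∀ x ∈ Y, Δ * O.card ≤ 2 * M * (nb G O x).card) →
      Inv G O O' Y Δ M c → (∀ x ∈ Y, (nb G Y x).card ≤ D₀) → False := by
    intro O Y O' c D₀ hED hDE' hDΔ hOP hOc hYR hYc hYO hInv hYd
    obtain ⟨O'', X, c', hX, hInv', hXd, hXc⟩ := gprocess2 (D₀ := D₀) hG hσ1 (by omega)
      (src2' Y D₀ hDE' hYR) (by omega) hED hDΔ ((card_le_card hYR).trans hR.le) (by omega)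
      hOc hYO
      (fun v hv X hX hc => low_half R X v σ σ Δ le_rfl (hX.trans hYR) (by omega) (hOP v hv) hc)
      hInv hYd
    have h1 : Y.card - X.card ≤ (Y \ X).card := le_card_sdiff X Y
    exact fin X (by omega) hXd
  rcases Nat.lt_or_ge E' Δ with hcase1 | hcase1
  · -- large degrees: trivial count first
    have hM3 : 8589934592 * σ ^ 2 * M ≤ Δ ^ 3 := by
      calc 8589934592 * σ ^ 2 * M = 8589934592 * (σ ^ 2 * M) := by ring
        _ ≤ 1099511627776 * (σ ^ 2 * M) := Nat.mul_le_mul_right _ (by norm_num)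
        _ = 1099511627776 * σ ^ 2 * M := by ring
        _ ≤ E' ^ 3 := hE'a
        _ ≤ Δ ^ 3 := Nat.pow_le_pow_left hcase1.le 3
    have hend : 1048576 * σ ^ 2 * M ≤ E' ^ 3 := by
      calc 1048576 * σ ^ 2 * M = 1048576 * (σ ^ 2 * M) := by ring
        _ ≤ 1099511627776 * (σ ^ 2 * M) := Nat.mul_le_mul_right _ (by norm_num)
        _ = 1099511627776 * σ ^ 2 * M := by ring
        _ ≤ E' ^ 3 := hE'a
    obtain ⟨O, Y, hYR, hYc, hOc, hYO, hOP⟩ := hosts_gen hG (by omega) hΔ1 R U hR hU σ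
      (Rb := M) hM3 (by
        calc ∑ x ∈ R, (Pd G R x).card ≤ ∑ _x ∈ R, M :=
              sum_le_sum fun x _ => (card_le_card (Pd_subset G R x)).trans hR.le
          _ = M * M := by rw [sum_const, smul_eq_mul, hR]) nohost
    have hsrc : GSrc H G σ M E' Y := by
      intro X _ Dc hDc hdeg hXc
      obtain ⟨P, -, hPM, hP⟩ := core' hno (by omega) h.hVμ h.hμ hMμ X Dc (by omega) hXc hdeg
      exact ⟨P ∩ A, P ∩ B, P.card, 64 * (P.card * d) + ed d,
        q_small hμ1 hMμd hPM (by omega), le_q hd1, card_le_card inter_subset_left,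
        card_le_card inter_subset_left,
        embA hG hd1 h.hAD inter_subset_right (card_le_card inter_subset_left),
        h.hσ.mono (subset_univ _) le_rfl, hP _ (hPeq P) X hdeg⟩
    obtain ⟨O', X, c, hX, hInv, hXd, hXc⟩ := gprocess (D₀ := Δ) hG hσ1 (by omega)
      hsrc (Dend := E') hend (by omega) hcase1.le le_rfl
      ((card_le_card hYR).trans hR.le) (by omega) hOc hYO
      (fun v hv X hX hc => low_half R X v σ σ Δ le_rfl (hX.trans hYR) (by omega)
        (hOP v hv) hc) (Inv.start G O Y Δ M) (hRX Y hYR)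
    have h1 : Y.card - X.card ≤ (Y \ X).card := le_card_sdiff X Y
    exact ph2 O X O' c E' hEE' le_rfl hcase1.le hOP hOc (hX.trans hYR) (by omega)
      (fun x hx => hYO x (hX hx)) hInv hXd
  · -- small degrees: refined count
    obtain ⟨P, hPc, hPM, hP⟩ := core' hno (by omega) h.hVμ h.hμ hMμ R Δ hΔ1 (by omega) hRd
    have hP1 : 1 ≤ P.card := by
      by_contra h0
      have hP0 : P = ∅ := card_eq_zero.1 (by omega)
      refine hP P subset_rfl R hRd ?_
      rw [hP0]
      exact Emb_empty H G R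
    have hnoR : ¬ Emb H G ((P ∩ A) ∪ (P ∩ B)) R := hP _ (hPeq P) R hRd
    have hq : 16384 * (64 * (P.card * d) + ed d) ≤ Δ := q_small hμ1 hMμd hPM (by omega)
    obtain ⟨n1, n2⟩ := gnumR hσ1 (by omega) hN2 hElow hcase.le
      (q := 64 * (P.card * d) + ed d) (by omega) hq hPM
    obtain ⟨O, Y, hYR, hYc, hOc, hYO, hOP⟩ := hosts_gen hG (by omega) hΔ1 R U hR hU σ n1 (by
      have h2 := hsumR P Δ _ R hcase1 hPM hnoR (by omega) hP1 n2
      rw [hR] at h2
      exact h2) nohost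
    exact ph2 O Y O 0 Δ hcase.le hcase1 le_rfl hOP hOc hYR (by omega) hYO
      (Inv.start G O Y Δ M) (hRX Y hYR)

end

end Pool.Agent.RamseyH5
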